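import Pool.Agent.H601.BG.Count

namespace Pool.Agent.H601.BG

/-- The pair of scales `(K, L)` is dangerous. -/
def Dg (P : Par) (K L : ℕ) : Prop := P.K0 ≤ L ∧ L < K ∧ kap L < P.τ K + P.τ L + 2

open Classical in
/-- The tuples which are bad for `q` at the scales `(K, L)`. -/
noncomputable def BT (P : Par) (q : ℕ → ℕ) (L K : ℕ) : Finset (ℕ × ℕ × ℕ × ℕ × ℕ × ℕ) :=
  (Tup (P.τ K) (P.τ L)).filter (fun t => CdT q L K t)

open Classical in
/-- The primes to be deleted at scale `K`. -/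
noncomputable def Bad (P : Par) (q : ℕ → ℕ) (K : ℕ) : Finset ℕ :=
  ((Finset.range K).filter (fun L => Dg P K L)).biUnion (fun L => (BT P q L K).image Prod.fst)

theorem BT_congr (P : Par) {q q' : ℕ → ℕ} {L K : ℕ} (hLK : L ≤ K) (h : ∀ i < K, q i = q' i) :
    BT P q L K = BT P q' L K := by
  classical
  have e1 : DD q L = DD q' L :=
    Finset.prod_congr rfl (fun i hi => h i (lt_of_lt_of_le (Finset.mem_range.1 hi) hLK))
  have e2 : RR q L K = RR q' L K :=
    Finset.prod_congr rfl (fun i hi => h i (Finset.mem_Ico.1 hi).2)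
  unfold BT
  refine Finset.filter_congr (fun t _ => ?_)
  unfold CdT Cd
  rw [e1, e2]

theorem Bad_congr (P : Par) {q q' : ℕ → ℕ} {K : ℕ} (h : ∀ i < K, q i = q' i) :
    Bad P q K = Bad P q' K := by
  classical
  unfold Bad
  refine Finset.biUnion_congr rfl (fun L hL => ?_)
  rw [Finset.mem_filter, Finset.mem_range] at hL
  rw [BT_congr P hL.1.le h]

theorem card_TT_eq (P : Par) (J L K : ℕ) :
    (TT P J L K).card = ∑ f ∈ Om J, (BT P (ex J f) L K).card := by
  classical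
  unfold TT BT
  rw [Finset.card_filter, Finset.sum_product]
  refine Finset.sum_congr rfl (fun f _ => ?_)
  rw [Finset.card_filter]

theorem sum_Bad (P : Par) {J K : ℕ} (hKJ : K ≤ J) :
    (∑ f ∈ Om J, ((Bad P (ex J f) K).card : ℝ)) * 16^K
      ≤ K * (((Q (P.τ K)).card : ℝ) * (Om J).card) := by
  classical
  have h1 : ∀ f : Fin J → ℕ, ((Bad P (ex J f) K).card : ℝ)
      ≤ ∑ L ∈ (Finset.range K).filter (fun L => Dg P K L), ((BT P (ex J f) L K).card : ℝ) := by
    intro f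
    have h2 : (Bad P (ex J f) K).card
      ≤ ∑ L ∈ (Finset.range K).filter (fun L => Dg P K L), (BT P (ex J f) L K).card := by
      unfold Bad
      refine le_trans Finset.card_biUnion_le ?_
      exact Finset.sum_le_sum (fun L _ => Finset.card_image_le)
    exact_mod_cast h2
  have h3 : (∑ f ∈ Om J, ((Bad P (ex J f) K).card : ℝ))
      ≤ ∑ L ∈ (Finset.range K).filter (fun L => Dg P K L), ((TT P J L K).card : ℝ) := by
    calc _ ≤ ∑ f ∈ Om J, ∑ L ∈ (Finset.range K).filter (fun L => Dg P K L),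
            ((BT P (ex J f) L K).card : ℝ) := Finset.sum_le_sum (fun f _ => h1 f)
      _ = ∑ L ∈ (Finset.range K).filter (fun L => Dg P K L), ∑ f ∈ Om J,
            ((BT P (ex J f) L K).card : ℝ) := Finset.sum_comm
      _ = _ := by
        refine Finset.sum_congr rfl (fun L _ => ?_)
        rw [card_TT_eq]
        push_cast
        rfl
  calc _ ≤ (∑ L ∈ (Finset.range K).filter (fun L => Dg P K L), ((TT P J L K).card : ℝ)) * 16^K :=
        mul_le_mul_of_nonneg_right h3 (by positivity)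
    _ = ∑ L ∈ (Finset.range K).filter (fun L => Dg P K L), ((TT P J L K).card : ℝ) * 16^K :=
        Finset.sum_mul _ _ _
    _ ≤ ∑ L ∈ (Finset.range K).filter (fun L => Dg P K L),
          ((Q (P.τ K)).card : ℝ) * (Om J).card := by
        refine Finset.sum_le_sum (fun L hL => ?_)
        rw [Finset.mem_filter] at hL
        obtain ⟨_, g1, g2, g3⟩ := hL
        exact TT_bound P g1 g2 hKJ g3
    _ = (((Finset.range K).filter (fun L => Dg P K L)).card : ℝ) *
          (((Q (P.τ K)).card : ℝ) * (Om J).card) := by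
        rw [Finset.sum_const, nsmul_eq_mul]
    _ ≤ K * (((Q (P.τ K)).card : ℝ) * (Om J).card) := by
        refine mul_le_mul_of_nonneg_right ?_ (by positivity)
        have : ((Finset.range K).filter (fun L => Dg P K L)).card ≤ K := by
          refine (Finset.card_filter_le _ _).trans ?_
          rw [Finset.card_range]
        exact_mod_cast this

theorem Q_pos (P : Par) {K : ℕ} (hK : P.K0 ≤ K) : (0:ℝ) < ((Q (P.τ K)).card : ℝ) := by
  have h1 := P.h2 K hK
  have h := card_Q (P.τ K) (by omega)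
  have h2 : (0:ℝ) < ((P.τ K : ℕ):ℝ) := by
    have : 0 < P.τ K := by omega
    exact_mod_cast this
  have h3 : (0:ℝ) < (16:ℝ)^(P.τ K) / (P.τ K : ℝ) := by positivity
  linarith

theorem K_le (K : ℕ) (hK : 1 ≤ K) : (K:ℝ) / 16^K ≤ 1 / 2^(K+1) := by
  rw [div_le_div_iff₀ (by positivity) (by positivity)]
  have h1 : K < 2^K := Nat.lt_two_pow_self
  have h2 : (K:ℝ) ≤ 2^K := by exact_mod_cast h1.le
  have h3 : (2:ℝ)^(K+1) ≤ 2^(2*K) := pow_le_pow_right₀ (by norm_num) (by omega)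
  have h4 : (2:ℝ)^K * 2^(2*K) ≤ 16^K := by
    rw [← pow_add]
    have : (16:ℝ)^K = 2^(4*K) := by rw [pow_mul]; norm_num
    rw [this]
    exact pow_le_pow_right₀ (by norm_num) (by omega)
  calc (K:ℝ) * 2^(K+1) ≤ 2^K * 2^(2*K) := by gcongr
    _ ≤ 16^K := h4
    _ = 1 * 16^K := by ring

theorem geo (J : ℕ) : ∀ K0, 1 ≤ K0 → ∑ K ∈ Finset.Ico K0 (J+1), (1:ℝ) / 2^(K+1) ≤ 1/2 := by
  intro K0 h
  have h1 : ∀ n : ℕ, ∑ K ∈ Finset.Ico 1 (n+1), (1:ℝ) / 2^(K+1) = 1/2 - 1/2^(n+1) := by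
    intro n
    induction n with
    | zero => simp
    | succ m ih =>
      rw [Finset.sum_Ico_succ_top (by omega), ih]
      rw [pow_succ (2:ℝ) (m+1)]
      field_simp
      ring
  calc _ ≤ ∑ K ∈ Finset.Ico 1 (J+1), (1:ℝ) / 2^(K+1) := by
        refine Finset.sum_le_sum_of_subset_of_nonneg (Finset.Ico_subset_Ico_left h) ?_
        intro i _ _; positivity
    _ = 1/2 - 1/2^(J+1) := h1 J
    _ ≤ 1/2 := by
        have : (0:ℝ) < 1/2^(J+1) := by positivity
        linarith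

/-- A good finite sequence of moduli. -/
theorem exists_good (P : Par) (J : ℕ) : ∃ f ∈ Om J, ∀ K, P.K0 ≤ K → K ≤ J →
    2 * (Bad P (ex J f) K).card ≤ (Q (P.τ K)).card := by
  classical
  by_contra hcon
  push Not at hcon
  have hpos : ∀ f ∈ Om J, (1:ℝ)/2 < ∑ K ∈ Finset.Ico P.K0 (J+1),
      ((Bad P (ex J f) K).card : ℝ) / ((Q (P.τ K)).card : ℝ) := by
    intro f hf
    obtain ⟨K, hK1, hK2, hK3⟩ := hcon f hf
    have h1 : (1:ℝ)/2 < ((Bad P (ex J f) K).card : ℝ) / ((Q (P.τ K)).card : ℝ) := by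
      rw [lt_div_iff₀ (Q_pos P hK1)]
      have : ((Q (P.τ K)).card : ℝ) < 2 * ((Bad P (ex J f) K).card : ℝ) := by exact_mod_cast hK3
      linarith
    refine lt_of_lt_of_le h1 ?_
    refine Finset.single_le_sum (f := fun K => ((Bad P (ex J f) K).card : ℝ) / ((Q (P.τ K)).card : ℝ))
      (fun i _ => by positivity) (Finset.mem_Ico.2 ⟨hK1, by omega⟩)
  have hOm : 0 < (Om J).card := by
    rw [Om, Fintype.card_piFinset]
    exact Finset.prod_pos (fun i _ => Q_card_pos _)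
  have h2 : ∑ f ∈ Om J, ((1:ℝ)/2) < ∑ f ∈ Om J, ∑ K ∈ Finset.Ico P.K0 (J+1),
      ((Bad P (ex J f) K).card : ℝ) / ((Q (P.τ K)).card : ℝ) :=
    Finset.sum_lt_sum_of_nonempty (Finset.card_pos.1 hOm) hpos
  rw [Finset.sum_const, nsmul_eq_mul, Finset.sum_comm] at h2
  have h3 : ∑ K ∈ Finset.Ico P.K0 (J+1), ∑ f ∈ Om J,
      ((Bad P (ex J f) K).card : ℝ) / ((Q (P.τ K)).card : ℝ)
      ≤ ∑ K ∈ Finset.Ico P.K0 (J+1), ((Om J).card : ℝ) * ((1:ℝ) / 2^(K+1)) := by
    refine Finset.sum_le_sum (fun K hK => ?_)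
    rw [Finset.mem_Ico] at hK
    have h4 := sum_Bad P (J := J) (K := K) (by omega)
    have h5 := Q_pos P hK.1
    have h6 := K_le K (P.K0pos.trans hK.1)
    rw [← Finset.sum_div, div_le_iff₀ h5]
    have h7 : (∑ f ∈ Om J, ((Bad P (ex J f) K).card : ℝ))
        ≤ (K * (((Q (P.τ K)).card : ℝ) * (Om J).card)) / 16^K := by
      rw [le_div_iff₀ (by positivity)]; exact h4
    calc _ ≤ (K * (((Q (P.τ K)).card : ℝ) * (Om J).card)) / 16^K := h7
      _ = ((K:ℝ) / 16^K) * (((Q (P.τ K)).card : ℝ) * (Om J).card) := by ring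
      _ ≤ (1 / 2^(K+1)) * (((Q (P.τ K)).card : ℝ) * (Om J).card) := by gcongr
      _ = _ := by ring
  rw [← Finset.mul_sum] at h3
  have h8 := geo J P.K0 P.K0pos
  have h9 : ((Om J).card : ℝ) * ∑ K ∈ Finset.Ico P.K0 (J+1), (1:ℝ) / 2^(K+1)
      ≤ ((Om J).card : ℝ) * (1/2) := by gcongr
  linarith

/-- Compactness: a good infinite sequence of moduli. -/
theorem exists_seq (P : Par) : ∃ q : ℕ → ℕ, Adm q ∧ ∀ K, P.K0 ≤ K →
    2 * (Bad P q K).card ≤ (Q (P.τ K)).card := by
  classical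
  let S : ℕ → Set (ℕ → ℕ) := fun J => {q | Adm q ∧ ∀ K, P.K0 ≤ K → K ≤ J →
    2 * (Bad P q K).card ≤ (Q (P.τ K)).card}
  have hadm : {q : ℕ → ℕ | Adm q} = Set.pi Set.univ (fun i => ((Q (i+3) : Finset ℕ) : Set ℕ)) := by
    ext q
    simp [Adm, Set.mem_pi]
  have hcomp : IsCompact {q : ℕ → ℕ | Adm q} := by
    rw [hadm]
    exact isCompact_univ_pi (fun i => (Finset.finite_toSet _).isCompact)
  have hclosedK : ∀ K, IsClosed {q : ℕ → ℕ | 2 * (Bad P q K).card ≤ (Q (P.τ K)).card} := by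
    intro K
    let r : (ℕ → ℕ) → (Fin K → ℕ) := fun q i => q i
    have hr : Continuous r := continuous_pi (fun i => continuous_apply _)
    let G : Set (Fin K → ℕ) := {g | 2 * (Bad P (ex K g) K).card ≤ (Q (P.τ K)).card}
    have hG : IsClosed G := isClosed_discrete G
    have e : {q : ℕ → ℕ | 2 * (Bad P q K).card ≤ (Q (P.τ K)).card} = r ⁻¹' G := by
      ext q
      simp only [Set.mem_setOf_eq, Set.mem_preimage, G]
      have : Bad P q K = Bad P (ex K (r q)) K := by
        refine Bad_congr P (fun i hi => ?_)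
        rw [ex_lt _ hi]
      rw [this]
    rw [e]
    exact hG.preimage hr
  have hS : ∀ J, S J = {q | Adm q} ∩ ⋂ K, {q : ℕ → ℕ | P.K0 ≤ K → K ≤ J →
      2 * (Bad P q K).card ≤ (Q (P.τ K)).card} := by
    intro J
    ext q
    simp [S]
  have hclosedS : ∀ J, IsClosed (S J) := by
    intro J
    rw [hS J]
    refine hcomp.isClosed.inter (isClosed_iInter (fun K => ?_))
    by_cases h1 : P.K0 ≤ K
    · by_cases h2 : K ≤ J
      · simpa [h1, h2] using hclosedK K
      · simp [h2]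
    · simp [h1]
  have hcS : ∀ J, IsCompact (S J) := fun J =>
    hcomp.of_isClosed_subset (hclosedS J) (fun q hq => hq.1)
  have hne : (⋂ J, S J).Nonempty := by
    refine IsCompact.nonempty_iInter_of_sequence_nonempty_isCompact_isClosed S ?_ ?_ (hcS 0) hclosedS
    · intro J q hq
      exact ⟨hq.1, fun K h1 h2 => hq.2 K h1 (by omega)⟩
    · intro J
      obtain ⟨f, hf, hg⟩ := exists_good P J
      exact ⟨ex J f, ex_adm hf, hg⟩
  obtain ⟨q, hq⟩ := hne
  rw [Set.mem_iInter] at hq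
  exact ⟨q, (hq 0).1, fun K hK => (hq K).2 K hK le_rfl⟩

end Pool.Agent.H601.BG
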