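import Pool.Agent.H601.BG.Avg

namespace Pool.Agent.H601.BG

/-- The set attached to a sequence of moduli. -/
def AA (P : Par) (q : ℕ → ℕ) : Set ℕ :=
  {a | ∃ K x, P.K0 ≤ K ∧ x ∈ Q (P.τ K) ∧ x ∉ Bad P q K ∧ a = el q K x}

/-- The representations of `n` as a sum of two elements `a ≤ b` of `A`. -/
def Rep (A : Set ℕ) (n : ℕ) : Set (ℕ × ℕ) :=
  {p | p.1 ∈ A ∧ p.2 ∈ A ∧ p.1 ≤ p.2 ∧ p.1 + p.2 = n}

theorem Rep_finite (A : Set ℕ) (n : ℕ) : (Rep A n).Finite := by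
  refine Set.Finite.subset ((Set.finite_Iic n).prod (Set.finite_Iic n)) ?_
  rintro ⟨a, b⟩ ⟨_, _, _, h⟩
  simp only at h
  simp only [Set.mem_prod, Set.mem_Iic]
  constructor <;> omega

/-- Data of one representation. -/
structure RD (P : Par) (q : ℕ → ℕ) (n : ℕ) (p : ℕ × ℕ) (K L x y : ℕ) : Prop where
  hL0 : P.K0 ≤ L
  hLK : L ≤ K
  hx : x ∈ Q (P.τ K)
  hy : y ∈ Q (P.τ L)
  hxB : x ∉ Bad P q K
  hs : el q K x + el q L y = n
  hp : (p.1 = el q K x ∧ p.2 = el q L y) ∨ (p.1 = el q L y ∧ p.2 = el q K x)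
  hle : p.1 ≤ p.2

theorem exists_RD (P : Par) (q : ℕ → ℕ) (n : ℕ) (p : ℕ × ℕ) (hp : p ∈ Rep (AA P q) n) :
    ∃ K L x y, RD P q n p K L x y := by
  obtain ⟨⟨K, x, h1, h2, h3, h4⟩, ⟨L, y, g1, g2, g3, g4⟩, hle, hs⟩ := hp
  rcases le_total L K with h | h
  · exact ⟨K, L, x, y, ⟨g1, h, h2, g2, h3, by rw [← h4, ← g4]; exact hs, Or.inl ⟨h4, g4⟩, hle⟩⟩
  · exact ⟨L, K, y, x, ⟨h1, h, g2, h2, g3, by rw [← h4, ← g4, add_comm]; exact hs,
      Or.inr ⟨h4, g4⟩, hle⟩⟩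

theorem pair_eq {P : Par} {q : ℕ → ℕ} {n : ℕ} {p p' : ℕ × ℕ} {K L x y K' L' x' y' : ℕ}
    (h : RD P q n p K L x y) (h' : RD P q n p' K' L' x' y')
    (e : (el q K x = el q K' x' ∧ el q L y = el q L' y') ∨
      (el q K x = el q L' y' ∧ el q L y = el q K' x')) : p = p' := by
  have h1 := h.hle
  have h2 := h'.hle
  have : p.1 = p'.1 ∧ p.2 = p'.2 := by
    rcases h.hp with ⟨a1, a2⟩ | ⟨a1, a2⟩ <;> rcases h'.hp with ⟨b1, b2⟩ | ⟨b1, b2⟩ <;>
    rcases e with ⟨c1, c2⟩ | ⟨c1, c2⟩ <;>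
    · rw [a1, a2] at h1
      rw [b1, b2] at h2
      rw [a1, a2, b1, b2]
      omega
  exact Prod.ext this.1 this.2

/-- No three distinct representations. -/
theorem no_three (P : Par) {q : ℕ → ℕ} (hq : Adm q) {n : ℕ} {p0 p1 p2 : ℕ × ℕ}
    {K L x0 y0 K1 L1 x1 y1 K2 L2 x2 y2 : ℕ}
    (h0 : RD P q n p0 K L x0 y0) (h1 : RD P q n p1 K1 L1 x1 y1)
    (h2 : RD P q n p2 K2 L2 x2 y2) (n1 : p0 ≠ p1) (n2 : p0 ≠ p2) (n3 : p1 ≠ p2) : False := by
  classical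
  have hpr : ∀ i, (q i).Prime := hq.prime
  obtain ⟨eK1, eL1, f1, g1⟩ := sum_struct q hpr h1.hLK h0.hLK (h1.hs.trans h0.hs.symm)
  obtain ⟨eK2, eL2, f2, g2⟩ := sum_struct q hpr h2.hLK h0.hLK (h2.hs.trans h0.hs.symm)
  have eK1' := eK1.symm
  have eL1' := eL1.symm
  have eK2' := eK2.symm
  have eL2' := eL2.symm
  subst eK1'
  subst eL1'
  subst eK2'
  subst eL2'
  obtain ⟨D1, R1⟩ := sum_dvd P hq h0.hL0 h0.hLK h1.hx h0.hx h1.hy h0.hy f1 g1
  obtain ⟨D2, R2⟩ := sum_dvd P hq h0.hL0 h0.hLK h2.hx h0.hx h2.hy h0.hy f2 g2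
  obtain ⟨px0, _, _⟩ := mem_Q h0.hx
  obtain ⟨px1, _, _⟩ := mem_Q h1.hx
  obtain ⟨py0, _, _⟩ := mem_Q h0.hy
  have hs1 := h1.hs.trans h0.hs.symm
  have hs2 := h2.hs.trans h0.hs.symm
  have hs12 := h1.hs.trans h2.hs.symm
  rcases Nat.lt_or_ge L K with hlt | hge
  · by_cases hd : kap L < P.τ K + P.τ L + 2
    · have hx01 : x0 ≠ x1 := by
        intro e; subst e
        exact n1 (pair_eq h0 h1 (Or.inl ⟨rfl, by omega⟩))
      have hx02 : x0 ≠ x2 := by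
        intro e; subst e
        exact n2 (pair_eq h0 h2 (Or.inl ⟨rfl, by omega⟩))
      have hx12 : x1 ≠ x2 := by
        intro e; subst e
        exact n3 (pair_eq h1 h2 (Or.inl ⟨rfl, by omega⟩))
      have hy01 : y0 ≠ y1 := by
        intro e; subst e
        exact n1 (pair_eq h0 h1 (Or.inl ⟨by omega, rfl⟩))
      have hy02 : y0 ≠ y2 := by
        intro e; subst e
        exact n2 (pair_eq h0 h2 (Or.inl ⟨by omega, rfl⟩))
      have hy12 : y1 ≠ y2 := by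
        intro e; subst e
        exact n3 (pair_eq h1 h2 (Or.inl ⟨by omega, rfl⟩))
      refine h0.hxB ?_
      unfold Bad
      rw [Finset.mem_biUnion]
      refine ⟨L, Finset.mem_filter.2 ⟨Finset.mem_range.2 hlt, h0.hL0, hlt, hd⟩, ?_⟩
      rw [Finset.mem_image]
      refine ⟨(x0, x1, x2, y0, y1, y2), ?_, rfl⟩
      unfold BT
      rw [Finset.mem_filter]
      refine ⟨?_, ⟨D1, D2, R1, R2, hx01, hx02, hx12, hy01, hy02, hy12⟩⟩
      simp only [Tup, Finset.mem_product]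
      exact ⟨h0.hx, h1.hx, h2.hx, h0.hy, h1.hy, h2.hy⟩
    · have e := uniq_of_dvd hq h1.hx h0.hx h1.hy h0.hy (by omega) D1
      rcases prime_pair px1 px0 py0 e with ⟨e1, e2⟩ | ⟨e1, e2⟩
      · subst e1
        subst e2
        exact n1 (pair_eq h0 h1 (Or.inl ⟨rfl, rfl⟩))
      · have := Finset.disjoint_left.1 (Q_disj (s := P.τ K) (t := P.τ L)
          (P.mono K L h0.hL0 hlt).ne') h1.hx
        rw [e1] at this
        exact this h0.hy
  · have hLe : L = K := le_antisymm h0.hLK hge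
    subst hLe
    have h3 := P.h3 L h0.hL0
    have e := uniq_of_dvd hq h1.hx h0.hx h1.hy h0.hy (by omega) D1
    rcases prime_pair px1 px0 py0 e with ⟨e1, e2⟩ | ⟨e1, e2⟩
    · subst e1
      subst e2
      exact n1 (pair_eq h0 h1 (Or.inl ⟨rfl, rfl⟩))
    · subst e1
      subst e2
      exact n1 (pair_eq h0 h1 (Or.inr ⟨rfl, rfl⟩))

theorem Rep_le (P : Par) {q : ℕ → ℕ} (hq : Adm q) (n : ℕ) : (Rep (AA P q) n).ncard ≤ 2 := by
  by_contra hcon
  push Not at hcon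
  obtain ⟨p0, p1, p2, h0, h1, h2, n1, n2, n3⟩ :=
    (Set.two_lt_ncard_iff (Rep_finite _ _)).1 hcon
  obtain ⟨K, L, x0, y0, r0⟩ := exists_RD P q n p0 h0
  obtain ⟨K1, L1, x1, y1, r1⟩ := exists_RD P q n p1 h1
  obtain ⟨K2, L2, x2, y2, r2⟩ := exists_RD P q n p2 h2
  exact no_three P hq r0 r1 r2 n1 n2 n3

theorem el_pos {q : ℕ → ℕ} (hq : Adm q) {K : ℕ} (hK : 1 ≤ K) (x : ℕ) : 0 < el q K x := by
  unfold el
  have h1 : dg q K x 0 * W q 0 ≤ ∑ i ∈ Finset.range K, dg q K x i * W q i :=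
    Finset.single_le_sum (f := fun i => dg q K x i * W q i) (fun i _ => Nat.zero_le _)
      (Finset.mem_range.2 (by omega))
  have h2 : 0 < dg q K x 0 * W q 0 := by
    have h3 : 0 < K := by omega
    have h4 := (hq.prime 0).pos
    simp only [dg, h3, if_true, W, Finset.range_zero, Finset.prod_empty, mul_one]
    omega
  omega

theorem W_le {q : ℕ → ℕ} (hq : Adm q) (K : ℕ) : W q K ≤ 16^(kap K + 2 * K) := by
  induction K with
  | zero => simp [W, kap]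
  | succ n ih =>
    have e1 : W q (n+1) = W q n * (4 * q n) := by unfold W; rw [Finset.prod_range_succ]
    have e2 : kap (n+1) + 2 * (n+1) = (kap n + 2 * n) + (n + 5) := by
      unfold kap; rw [Finset.sum_range_succ]; ring
    rw [e1, e2, pow_add]
    refine Nat.mul_le_mul ih ?_
    have h1 := hq.le n
    have h2 : (16:ℕ)^(n+5) = 16 * 16^(n+4) := by rw [← pow_succ']
    omega

theorem el_inj (P : Par) {q : ℕ → ℕ} (hq : Adm q) {K x x' : ℕ} (hK : P.K0 ≤ K)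
    (hx : x ∈ Q (P.τ K)) (hx' : x' ∈ Q (P.τ K)) (h : el q K x = el q K x') : x = x' := by
  obtain ⟨_, _, _, g⟩ := sum_struct q hq.prime (K := K) (L := 0) (K' := K) (L' := 0)
    (x := x) (y := 0) (x' := x') (y' := 0) (by omega) (by omega) (by rw [h])
  have h1 : (RR q 0 K : ℤ) ∣ (x:ℤ) - x' := by
    refine dvd_RR hq (fun i hi1 hi2 => ?_)
    have h3 := lg_inj (hq.prime i) (cop_mod P hq hK hx hi2) (cop_mod P hq hK hx' hi2)
      (g i hi1 hi2)
    exact Nat.modEq_iff_dvd.1 h3.symm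
  have h2 : (16:ℕ)^(P.τ K + 1) ≤ RR q 0 K := by
    refine le_trans (Nat.pow_le_pow_right (by norm_num) ?_) (RR_ge hq 0 K)
    have h3 := P.h3 K hK
    have h4 : kap 0 + rl 0 K = kap K := kap_add (Nat.zero_le _)
    have h5 : kap 0 = 0 := by simp [kap]
    omega
  obtain ⟨_, a1, a2⟩ := mem_Q hx
  obtain ⟨_, b1, b2⟩ := mem_Q hx'
  have h3 : |(x:ℤ) - x'| < (RR q 0 K : ℤ) := by
    have c1 : (x:ℤ) ≤ RR q 0 K := by exact_mod_cast a2.trans h2
    have c2 : (x':ℤ) ≤ RR q 0 K := by exact_mod_cast b2.trans h2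
    have c3 : (0:ℤ) < x := by exact_mod_cast (by omega : 0 < x)
    have c4 : (0:ℤ) < x' := by exact_mod_cast (by omega : 0 < x')
    rw [abs_lt]
    constructor <;> linarith
  have h4 := Int.eq_zero_of_abs_lt_dvd h1 h3
  have h5 : (x:ℤ) = x' := by linarith
  exact_mod_cast h5

/-- The main construction: at most two representations, and many elements. -/
theorem core (P : Par) : ∃ A : Set ℕ, (∀ a ∈ A, 0 < a) ∧ (∀ n, (Rep A n).ncard ≤ 2) ∧
    ∀ K, P.K0 ≤ K → ∀ N, 16^(kap K + 2 * K) ≤ N →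
      (Q (P.τ K)).card ≤ 2 * (A ∩ Set.Icc 1 N).ncard := by
  classical
  obtain ⟨q, hq, hbad⟩ := exists_seq P
  refine ⟨AA P q, ?_, Rep_le P hq, ?_⟩
  · rintro a ⟨K, x, h1, _, _, h4⟩
    rw [h4]
    exact el_pos hq (P.K0pos.trans h1) x
  · intro K hK N hN
    have h1 := hbad K hK
    have hsub : ((((Q (P.τ K)) \ Bad P q K).image (el q K) : Finset ℕ) : Set ℕ)
        ⊆ AA P q ∩ Set.Icc 1 N := by
      intro a ha
      rw [Finset.mem_coe, Finset.mem_image] at ha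
      obtain ⟨x, hx, rfl⟩ := ha
      rw [Finset.mem_sdiff] at hx
      refine ⟨⟨K, x, hK, hx.1, hx.2, rfl⟩, ?_, ?_⟩
      · exact el_pos hq (P.K0pos.trans hK) x
      · exact ((el_lt q hq.prime K x).le.trans (W_le hq K)).trans hN
    have h2 := Set.ncard_le_ncard hsub ((Set.finite_Icc 1 N).inter_of_right _)
    rw [Set.ncard_coe_finset, Finset.card_image_of_injOn] at h2
    · have h3 : (Q (P.τ K)).card ≤ ((Q (P.τ K)) \ Bad P q K).card + (Bad P q K).card := by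
        have := Finset.card_le_card_sdiff_add_card (t := Bad P q K) (s := Q (P.τ K))
        omega
      omega
    · intro x hx x' hx' e
      rw [Finset.mem_coe, Finset.mem_sdiff] at hx hx'
      exact el_inj P hq hK hx.1 hx'.1 e

end Pool.Agent.H601.BG
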