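import Pool.Agent.H601.BG.Setup

namespace Pool.Agent.H601.BG

theorem Q_card_pos (i : ℕ) : 0 < (Q (i+3)).card := by
  have h := card_Q (i+3) (by omega)
  have h1 : (0:ℝ) < (16:ℝ)^(i+3) / ((i+3 : ℕ):ℝ) := by positivity
  have h2 : (0:ℝ) < ((Q (i+3)).card : ℝ) := lt_of_lt_of_le h1 h
  exact_mod_cast h2

/-- A default admissible sequence. -/
noncomputable def q0 (i : ℕ) : ℕ := (Finset.card_pos.1 (Q_card_pos i)).choose

theorem q0_mem (i : ℕ) : q0 i ∈ Q (i+3) := (Finset.card_pos.1 (Q_card_pos i)).choose_spec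

/-- Extension of a finite sequence. -/
noncomputable def ex (J : ℕ) (f : Fin J → ℕ) (i : ℕ) : ℕ :=
  if h : i < J then f ⟨i, h⟩ else q0 i

theorem ex_lt {J : ℕ} (f : Fin J → ℕ) {i : ℕ} (h : i < J) : ex J f i = f ⟨i, h⟩ := by
  unfold ex; rw [dif_pos h]

/-- The finite sequences of moduli. -/
noncomputable def Om (J : ℕ) : Finset (Fin J → ℕ) :=
  Fintype.piFinset (fun i => Q ((i:ℕ)+3))

/-- The upper parts of the finite sequences of moduli. -/
noncomputable def OmU (L J : ℕ) : Finset (Fin J → ℕ) :=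
  Fintype.piFinset (fun i => if (i:ℕ) < L then {0} else Q ((i:ℕ)+3))

/-- The upper part. -/
def up {J : ℕ} (L : ℕ) (f : Fin J → ℕ) : Fin J → ℕ := fun i => if (i:ℕ) < L then 0 else f i

theorem ex_adm {J : ℕ} {f : Fin J → ℕ} (hf : f ∈ Om J) : Adm (ex J f) := by
  intro i
  by_cases h : i < J
  · rw [ex_lt f h]
    exact Fintype.mem_piFinset.1 hf ⟨i, h⟩
  · unfold ex; rw [dif_neg h]; exact q0_mem i

theorem up_mem {J L : ℕ} {f : Fin J → ℕ} (hf : f ∈ Om J) : up L f ∈ OmU L J := by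
  rw [OmU, Fintype.mem_piFinset]
  intro i
  unfold up
  by_cases h : (i:ℕ) < L
  · simp [h]
  · simp only [h, if_false]
    exact Fintype.mem_piFinset.1 hf i

theorem card_Om {L J : ℕ} (h : L ≤ J) :
    (Om J).card = (OmU L J).card * ∏ i ∈ Finset.range L, (Q (i+3)).card := by
  unfold Om OmU
  rw [Fintype.card_piFinset, Fintype.card_piFinset]
  have e : ∀ i : Fin J, (Q ((i:ℕ)+3)).card
      = ((if (i:ℕ) < L then ({0} : Finset ℕ) else Q ((i:ℕ)+3)).card)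
        * (if (i:ℕ) < L then (Q ((i:ℕ)+3)).card else 1) := by
    intro i
    by_cases hi : (i:ℕ) < L <;> simp [hi]
  rw [Finset.prod_congr rfl (fun i _ => e i), Finset.prod_mul_distrib]
  congr 1
  rw [Fin.prod_univ_eq_prod_range (fun i => if i < L then (Q (i+3)).card else 1) J]
  have e2 : ∏ i ∈ Finset.range L, (Q (i+3)).card
      = ∏ i ∈ Finset.range L, (if i < L then (Q (i+3)).card else 1) :=
    Finset.prod_congr rfl (fun i hi => by rw [if_pos (Finset.mem_range.1 hi)])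
  rw [e2]
  symm
  refine Finset.prod_subset (fun i hi => Finset.mem_range.2
    (lt_of_lt_of_le (Finset.mem_range.1 hi) h)) ?_
  intro i _ hi
  have : ¬ i < L := fun h => hi (Finset.mem_range.2 h)
  rw [if_neg this]

theorem DD_inj {q q' : ℕ → ℕ} (hq : Adm q) (hq' : Adm q') {L : ℕ} (h : DD q L = DD q' L) :
    ∀ i < L, q i = q' i := by
  intro i hi
  have h1 : q i ∣ DD q' L := by
    rw [← h]
    exact Finset.dvd_prod_of_mem _ (Finset.mem_range.2 hi)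
  obtain ⟨j, hj, h2⟩ := ((hq.prime i).prime.dvd_finset_prod_iff _).1 h1
  have h3 := (Nat.prime_dvd_prime_iff_eq (hq.prime i) (hq'.prime j)).1 h2
  by_cases hij : i = j
  · rw [hij] at h3 ⊢; exact h3
  · exfalso
    have := Finset.disjoint_left.1 (Q_disj (s := i+3) (t := j+3) (by omega)) (hq i)
    rw [h3] at this
    exact this (hq' j)

/-- The range of the tuples. -/
noncomputable def Tup (a b : ℕ) : Finset (ℕ × ℕ × ℕ × ℕ × ℕ × ℕ) :=
  Q a ×ˢ Q a ×ˢ Q a ×ˢ Q b ×ˢ Q b ×ˢ Q b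

/-- The condition on tuples. -/
def CdT (q : ℕ → ℕ) (L K : ℕ) (t : ℕ × ℕ × ℕ × ℕ × ℕ × ℕ) : Prop :=
  Cd q L K t.1 t.2.1 t.2.2.1 t.2.2.2.1 t.2.2.2.2.1 t.2.2.2.2.2

open Classical in
/-- All bad configurations over all finite sequences. -/
noncomputable def TT (P : Par) (J L K : ℕ) :
    Finset ((Fin J → ℕ) × (ℕ × ℕ × ℕ × ℕ × ℕ × ℕ)) :=
  (Om J ×ˢ Tup (P.τ K) (P.τ L)).filter (fun z => CdT (ex J z.1) L K z.2)

/-- First parameter. -/
noncomputable def fm (q : ℕ → ℕ) (L x y x0 y0 : ℕ) : ℤ := ((x:ℤ) * y - (x0:ℤ) * y0) / (DD q L : ℤ)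

/-- Second parameter. -/
noncomputable def fs (q : ℕ → ℕ) (L K x x0 : ℕ) : ℤ := ((x:ℤ) - (x0:ℤ)) / (RR q L K : ℤ)

/-- Third parameter. -/
noncomputable def fk (q : ℕ → ℕ) (L K : ℕ) (x0 x1 x2 y0 y1 y2 : ℕ) : ℤ :=
  (fm q L x2 y2 x0 y0 * ((y1:ℤ) - y0) - fm q L x1 y1 x0 y0 * ((y2:ℤ) - y0)) / (RR q L K : ℤ)

/-- The parametrisation. -/
noncomputable def Phi (J L K : ℕ) (z : (Fin J → ℕ) × (ℕ × ℕ × ℕ × ℕ × ℕ × ℕ)) :
    ℕ × ℕ × ℤ × ℤ × ℤ × ℤ × (Fin J → ℕ) :=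
  (z.2.1, z.2.2.2.2.2.1,
    fm (ex J z.1) L z.2.2.1 z.2.2.2.2.2.1 z.2.1 z.2.2.2.2.1,
    fm (ex J z.1) L z.2.2.2.1 z.2.2.2.2.2.2 z.2.1 z.2.2.2.2.1,
    fk (ex J z.1) L K z.2.1 z.2.2.1 z.2.2.2.1 z.2.2.2.2.1 z.2.2.2.2.2.1 z.2.2.2.2.2.2,
    fs (ex J z.1) L K z.2.2.1 z.2.1,
    up L z.1)

/-- The range of the parametrisation. -/
noncomputable def PS (P : Par) (J L K : ℕ) : Finset (ℕ × ℕ × ℤ × ℤ × ℤ × ℤ × (Fin J → ℕ)) :=
  Q (P.τ K) ×ˢ Q (P.τ L) ×ˢ bset (16^(kap L)) (16^(P.τ K + P.τ L + 2)) ×ˢ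
    bset (16^(kap L)) (16^(P.τ K + P.τ L + 2)) ×ˢ
    bset (16^(kap K)) (16^(P.τ K + 2 * P.τ L + 4)) ×ˢ
    bset (16^(rl L K)) (16^(P.τ K + 1)) ×ˢ OmU L J

theorem card_TT_le (P : Par) {J L K : ℕ} (hL0 : P.K0 ≤ L) (hLK : L < K) (hKJ : K ≤ J) :
    (TT P J L K).card ≤ (PS P J L K).card := by
  classical
  refine Finset.card_le_card_of_injOn (Phi J L K) ?_ ?_
  · rintro ⟨f, x0, x1, x2, y0, y1, y2⟩ hz
    rw [Finset.mem_coe, TT, Finset.mem_filter, Finset.mem_product] at hz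
    obtain ⟨⟨hf, ht⟩, hc⟩ := hz
    simp only [Tup, Finset.mem_product] at ht
    obtain ⟨hx0, hx1, hx2, hy0, hy1, hy2⟩ := ht
    have hq := ex_adm hf
    obtain ⟨m1, m2, κ, s1, s2, e1, e2, e3, e4, e5, e6, e7, e8, e9, e10, e11, e12, e13, e14⟩ :=
      params P hq hL0 hLK hx0 hx1 hx2 hy0 hy1 hy2 hc
    have hD : (DD (ex J f) L : ℤ) ≠ 0 := by exact_mod_cast (DD_pos hq L).ne'
    have hR : (RR (ex J f) L K : ℤ) ≠ 0 := by exact_mod_cast (RR_pos hq L K).ne'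
    have g1 : fm (ex J f) L x1 y1 x0 y0 = m1 := by
      unfold fm; rw [e1, Int.mul_ediv_cancel _ hD]
    have g2 : fm (ex J f) L x2 y2 x0 y0 = m2 := by
      unfold fm; rw [e2, Int.mul_ediv_cancel _ hD]
    have g3 : fk (ex J f) L K x0 x1 x2 y0 y1 y2 = κ := by
      unfold fk; rw [g1, g2, e5, Int.mul_ediv_cancel _ hR]
    have g4 : fs (ex J f) L K x1 x0 = s1 := by
      unfold fs; rw [e3, Int.mul_ediv_cancel _ hR]
    rw [Finset.mem_coe]
    simp only [PS, Phi, Finset.mem_product]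
    refine ⟨hx0, hy1, ?_, ?_, ?_, ?_, up_mem hf⟩
    · rw [g1]; exact e11
    · rw [g2]; exact e12
    · rw [g3]; exact e13
    · rw [g4]; exact e14
  · rintro ⟨f, x0, x1, x2, y0, y1, y2⟩ hz ⟨f', x0', x1', x2', y0', y1', y2'⟩ hz' he
    rw [Finset.mem_coe, TT, Finset.mem_filter, Finset.mem_product] at hz hz'
    obtain ⟨⟨hf, ht⟩, hc⟩ := hz
    obtain ⟨⟨hf', ht'⟩, hc'⟩ := hz'
    simp only [Tup, Finset.mem_product] at ht ht'
    obtain ⟨hx0, hx1, hx2, hy0, hy1, hy2⟩ := ht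
    obtain ⟨hx0', hx1', hx2', hy0', hy1', hy2'⟩ := ht'
    have hq := ex_adm hf
    have hq' := ex_adm hf'
    simp only [Phi, Prod.mk.injEq] at he
    obtain ⟨i1, i2, i3, i4, i5, i6, i7⟩ := he
    subst i1
    subst i2
    obtain ⟨m1, m2, κ, s1, s2, e1, e2, e3, e4, e5, e6, e7, e8, e9, e10, _⟩ :=
      params P hq hL0 hLK hx0 hx1 hx2 hy0 hy1 hy2 hc
    obtain ⟨m1', m2', κ', s1', s2', e1', e2', e3', e4', e5', e6', e7', e8', e9', e10', _⟩ :=
      params P hq' hL0 hLK hx0 hx1' hx2' hy0' hy1 hy2' hc'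
    have hD : (DD (ex J f) L : ℤ) ≠ 0 := by exact_mod_cast (DD_pos hq L).ne'
    have hR : (RR (ex J f) L K : ℤ) ≠ 0 := by exact_mod_cast (RR_pos hq L K).ne'
    have hD' : (DD (ex J f') L : ℤ) ≠ 0 := by exact_mod_cast (DD_pos hq' L).ne'
    have hR' : (RR (ex J f') L K : ℤ) ≠ 0 := by exact_mod_cast (RR_pos hq' L K).ne'
    have g1 : fm (ex J f) L x1 y1 x0 y0 = m1 := by
      unfold fm; rw [e1, Int.mul_ediv_cancel _ hD]
    have g2 : fm (ex J f) L x2 y2 x0 y0 = m2 := by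
      unfold fm; rw [e2, Int.mul_ediv_cancel _ hD]
    have g3 : fk (ex J f) L K x0 x1 x2 y0 y1 y2 = κ := by
      unfold fk; rw [g1, g2, e5, Int.mul_ediv_cancel _ hR]
    have g4 : fs (ex J f) L K x1 x0 = s1 := by
      unfold fs; rw [e3, Int.mul_ediv_cancel _ hR]
    have g1' : fm (ex J f') L x1' y1 x0 y0' = m1' := by
      unfold fm; rw [e1', Int.mul_ediv_cancel _ hD']
    have g2' : fm (ex J f') L x2' y2' x0 y0' = m2' := by
      unfold fm; rw [e2', Int.mul_ediv_cancel _ hD']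
    have g3' : fk (ex J f') L K x0 x1' x2' y0' y1 y2' = κ' := by
      unfold fk; rw [g1', g2', e5', Int.mul_ediv_cancel _ hR']
    have g4' : fs (ex J f') L K x1' x0 = s1' := by
      unfold fs; rw [e3', Int.mul_ediv_cancel _ hR']
    rw [g1, g1'] at i3
    rw [g2, g2'] at i4
    rw [g3, g3'] at i5
    rw [g4, g4'] at i6
    subst i3
    subst i4
    subst i5
    subst i6
    have hup : ∀ i : Fin J, L ≤ (i:ℕ) → f i = f' i := by
      intro i hi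
      have h1 := congrFun i7 i
      have h2 : ¬ ((i:ℕ) < L) := by omega
      simp only [up, h2, if_false] at h1
      exact h1
    have hRR : RR (ex J f') L K = RR (ex J f) L K := by
      unfold RR
      refine Finset.prod_congr rfl (fun i hi => ?_)
      rw [Finset.mem_Ico] at hi
      rw [ex_lt f (by omega : i < J), ex_lt f' (by omega : i < J)]
      exact (hup ⟨i, by omega⟩ hi.1).symm
    rw [hRR] at e3' e4' e5'
    obtain ⟨py2, gy2, _⟩ := mem_Q hy2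
    obtain ⟨py2', gy2', _⟩ := mem_Q hy2'
    have key := core_inj x0 y1 m1 m2 κ s1 (RR (ex J f) L K)
      x1 x2 y0 y2 (DD (ex J f) L) s2 x1' x2' y0' y2' (DD (ex J f') L) s2'
      (Nat.prime_iff_prime_int.1 py2') ?_ e7 e8 e9 ?_ ?_ e1 e3 e4 e5 e6 e1' e3' e4' e5' e6'
    · obtain ⟨k1, k2, k3, k4, k5⟩ := key
      have k1' : y2 = y2' := by exact_mod_cast k1
      have k2' : y0 = y0' := by exact_mod_cast k2
      have k3' : x1 = x1' := by exact_mod_cast k3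
      have k4' : x2 = x2' := by exact_mod_cast k4
      have k5' : DD (ex J f) L = DD (ex J f') L := by exact_mod_cast k5
      have hfe : f = f' := by
        funext i
        by_cases hi : (i:ℕ) < L
        · have h1 := DD_inj hq hq' k5' i hi
          rw [ex_lt f i.2, ex_lt f' i.2] at h1
          exact h1
        · exact hup i (by omega)
      rw [hfe, k1', k2', k3', k4']
    · intro hd
      have hd' : y2' ∣ y2 := by exact_mod_cast hd
      have := (Nat.prime_dvd_prime_iff_eq py2' py2).1 hd'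
      rw [this]
    · have := py2'.pos
      exact_mod_cast this.ne'
    · have h2 : (16:ℤ)^(P.τ L) < y2' := by exact_mod_cast gy2'
      linarith

theorem card_Q_le (t : ℕ) : (Q t).card ≤ 16^(t+1) := by
  unfold Q
  calc _ ≤ (Finset.Ioc (16^t) (16^(t+1))).card := Finset.card_filter_le _ _
    _ = 16^(t+1) - 16^t := by rw [Nat.card_Ioc]
    _ ≤ _ := Nat.sub_le _ _

theorem cL_ge (L : ℕ) : (16:ℝ)^(kap L) ≤ ((∏ i ∈ Finset.range L, (Q (i+3)).card : ℕ) : ℝ) * EE L := by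
  unfold kap EE
  rw [← Finset.prod_pow_eq_pow_sum]
  push_cast
  rw [← Finset.prod_mul_distrib]
  refine Finset.prod_le_prod (fun i _ => by positivity) (fun i _ => ?_)
  have h := card_Q (i+3) (by omega)
  have h1 : (0:ℝ) < ((i+3 : ℕ):ℝ) := by positivity
  rw [div_le_iff₀ h1] at h
  push_cast at h
  exact h

theorem real_main (T cK cL B1 B2 B3 U C O E u v w X1 X2 X3 X4 : ℝ)
    (hcK : 0 ≤ cK) (hcL : 0 ≤ cL) (hB1 : 0 ≤ B1) (hB2 : 0 ≤ B2) (hB3 : 0 ≤ B3) (hU : 0 ≤ U)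
    (hu : 0 ≤ u) (hv : 0 ≤ v) (hw : 0 ≤ w)
    (hX1 : 0 ≤ X1) (hX2 : 0 ≤ X2) (hX3 : 0 ≤ X3) (hX4 : 0 ≤ X4)
    (hT : T ≤ cK * (cL * (B1 * (B1 * (B2 * (B3 * U))))))
    (b1 : B1 * u ≤ 2 * X1) (b2 : B2 * v ≤ 2 * X2) (b3 : B3 * w ≤ 2 * X3) (b4 : cL ≤ X4)
    (b5 : O = U * C) (b6 : u ≤ C * E) :
    T * (u * (u * (v * (w * u)))) ≤ cK * O * ((16 * (X4 * X1 * X1 * X2 * X3)) * E) := by
  have n1 : 0 ≤ B1 * u := mul_nonneg hB1 hu
  have n2 : 0 ≤ B2 * v := mul_nonneg hB2 hv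
  have n3 : 0 ≤ B3 * w := mul_nonneg hB3 hw
  have m1 : (B1 * u) * (B1 * u) ≤ (2 * X1) * (2 * X1) := mul_le_mul b1 b1 n1 (by positivity)
  have m2 : (B2 * v) * (B3 * w) ≤ (2 * X2) * (2 * X3) := mul_le_mul b2 b3 n3 (by positivity)
  have m3 : U * u ≤ U * (C * E) := mul_le_mul_of_nonneg_left b6 hU
  have m4 : ((B1 * u) * (B1 * u)) * ((B2 * v) * (B3 * w))
      ≤ ((2 * X1) * (2 * X1)) * ((2 * X2) * (2 * X3)) :=
    mul_le_mul m1 m2 (mul_nonneg n2 n3) (by positivity)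
  have m5 : (((B1 * u) * (B1 * u)) * ((B2 * v) * (B3 * w))) * (U * u)
      ≤ (((2 * X1) * (2 * X1)) * ((2 * X2) * (2 * X3))) * (U * (C * E)) :=
    mul_le_mul m4 m3 (mul_nonneg hU hu) (by positivity)
  have n5 : 0 ≤ (((B1 * u) * (B1 * u)) * ((B2 * v) * (B3 * w))) * (U * u) := by positivity
  have m6 : cL * ((((B1 * u) * (B1 * u)) * ((B2 * v) * (B3 * w))) * (U * u))
      ≤ X4 * ((((2 * X1) * (2 * X1)) * ((2 * X2) * (2 * X3))) * (U * (C * E))) :=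
    mul_le_mul b4 m5 n5 hX4
  have m7 := mul_le_mul_of_nonneg_left m6 hcK
  have n6 : 0 ≤ u * (u * (v * (w * u))) := by positivity
  calc T * (u * (u * (v * (w * u))))
      ≤ (cK * (cL * (B1 * (B1 * (B2 * (B3 * U)))))) * (u * (u * (v * (w * u)))) :=
        mul_le_mul_of_nonneg_right hT n6
    _ = cK * (cL * ((((B1 * u) * (B1 * u)) * ((B2 * v) * (B3 * w))) * (U * u))) := by ring
    _ ≤ _ := m7
    _ = _ := by rw [b5]; ring

theorem TT_bound (P : Par) {J L K : ℕ} (hL0 : P.K0 ≤ L) (hLK : L < K) (hKJ : K ≤ J)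
    (hd : kap L < P.τ K + P.τ L + 2) :
    ((TT P J L K).card : ℝ) * 16^K ≤ ((Q (P.τ K)).card : ℝ) * (Om J).card := by
  have h1 : ((TT P J L K).card : ℝ) ≤ ((PS P J L K).card : ℝ) :=
    Nat.cast_le.2 (card_TT_le P hL0 hLK hKJ)
  have h2 : ((PS P J L K).card : ℝ) = ((Q (P.τ K)).card : ℝ) * (((Q (P.τ L)).card : ℝ) *
      (((bset (16^(kap L)) (16^(P.τ K + P.τ L + 2))).card : ℝ) *
      (((bset (16^(kap L)) (16^(P.τ K + P.τ L + 2))).card : ℝ) *
      (((bset (16^(kap K)) (16^(P.τ K + 2 * P.τ L + 4))).card : ℝ) *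
      (((bset (16^(rl L K)) (16^(P.τ K + 1))).card : ℝ) * ((OmU L J).card : ℝ)))))) := by
    unfold PS
    rw [Finset.card_product, Finset.card_product, Finset.card_product, Finset.card_product,
      Finset.card_product, Finset.card_product]
    rw [Nat.cast_mul, Nat.cast_mul, Nat.cast_mul, Nat.cast_mul, Nat.cast_mul, Nat.cast_mul]
  have c16 : ∀ n : ℕ, (((16:ℕ)^n : ℕ) : ℝ) = (16:ℝ)^n := by intro n; push_cast; rfl
  have b1 : ((bset (16^(kap L)) (16^(P.τ K + P.τ L + 2))).card : ℝ) * 16^(kap L)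
      ≤ 2 * 16^(P.τ K + P.τ L + 2) := by
    have h := card_bset (16^(kap L)) (16^(P.τ K + P.τ L + 2)) (by positivity)
    have h' : (((bset (16^(kap L)) (16^(P.τ K + P.τ L + 2))).card * 16^(kap L) : ℕ) : ℝ)
      ≤ ((2 * 16^(P.τ K + P.τ L + 2) : ℕ) : ℝ) := Nat.cast_le.2 h
    rw [Nat.cast_mul, Nat.cast_mul, c16, c16] at h'
    exact h'
  have b2 : ((bset (16^(kap K)) (16^(P.τ K + 2 * P.τ L + 4))).card : ℝ) * 16^(kap K)
      ≤ 2 * 16^(P.τ K + 2 * P.τ L + 4) := by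
    have h := card_bset (16^(kap K)) (16^(P.τ K + 2 * P.τ L + 4)) (by positivity)
    have h' : (((bset (16^(kap K)) (16^(P.τ K + 2 * P.τ L + 4))).card * 16^(kap K) : ℕ) : ℝ)
      ≤ ((2 * 16^(P.τ K + 2 * P.τ L + 4) : ℕ) : ℝ) := Nat.cast_le.2 h
    rw [Nat.cast_mul, Nat.cast_mul, c16, c16] at h'
    exact h'
  have b3 : ((bset (16^(rl L K)) (16^(P.τ K + 1))).card : ℝ) * 16^(rl L K)
      ≤ 2 * 16^(P.τ K + 1) := by
    have h := card_bset (16^(rl L K)) (16^(P.τ K + 1)) (by positivity)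
    have h' : (((bset (16^(rl L K)) (16^(P.τ K + 1))).card * 16^(rl L K) : ℕ) : ℝ)
      ≤ ((2 * 16^(P.τ K + 1) : ℕ) : ℝ) := Nat.cast_le.2 h
    rw [Nat.cast_mul, Nat.cast_mul, c16, c16] at h'
    exact h'
  have b4 : ((Q (P.τ L)).card : ℝ) ≤ 16^(P.τ L + 1) := by
    have h' : ((Q (P.τ L)).card : ℝ) ≤ ((16^(P.τ L + 1) : ℕ) : ℝ) := Nat.cast_le.2 (card_Q_le (P.τ L))
    rw [c16] at h'
    exact h'
  have b5 : ((Om J).card : ℝ) = ((OmU L J).card : ℝ) *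
      ((∏ i ∈ Finset.range L, (Q (i+3)).card : ℕ) : ℝ) := by
    rw [← Nat.cast_mul, ← card_Om (L := L) (J := J) (by omega)]
  have b6 := cL_ge L
  have b7 := P.h4 K L hL0 hLK hd
  have main := real_main ((TT P J L K).card : ℝ) ((Q (P.τ K)).card : ℝ) ((Q (P.τ L)).card : ℝ)
    _ _ _ _ _ _ (EE L : ℝ) (16^(kap L)) (16^(kap K)) (16^(rl L K)) _ _ _ _
    (Nat.cast_nonneg _) (Nat.cast_nonneg _) (Nat.cast_nonneg _) (Nat.cast_nonneg _)
    (Nat.cast_nonneg _) (Nat.cast_nonneg _) (by positivity) (by positivity) (by positivity)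
    (by positivity) (by positivity) (by positivity) (by positivity)
    (h1.trans (le_of_eq h2)) b1 b2 b3 b4 b5 b6
  have ekap : kap L + rl L K = kap K := kap_add hLK.le
  have hL1 : (16:ℝ)^(kap L) * (16^(kap L) * (16^(kap K) * (16^(rl L K) * 16^(kap L))))
      = (16:ℝ)^(2 * kap K + 2 * kap L) := by
    rw [← pow_add, ← pow_add, ← pow_add, ← pow_add]
    congr 1; omega
  have hL2 : 16 * ((16:ℝ)^(P.τ L + 1) * 16^(P.τ K + P.τ L + 2) *
            16^(P.τ K + P.τ L + 2) * 16^(P.τ K + 2 * P.τ L + 4) * 16^(P.τ K + 1))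
      = (16:ℝ)^(4 * P.τ K + 5 * P.τ L + 11) := by
    rw [← pow_add, ← pow_add, ← pow_add, ← pow_add, ← pow_succ']
    congr 1; omega
  rw [hL1, hL2] at main
  have hE : 0 < (EE L : ℝ) := by
    have : 0 < EE L := Finset.prod_pos (fun i _ => by omega)
    exact_mod_cast this
  have hT : (0:ℝ) ≤ ((TT P J L K).card : ℝ) := Nat.cast_nonneg _
  have h5 := le_trans (mul_le_mul_of_nonneg_left b7 hT) main
  have h6 : (((TT P J L K).card : ℝ) * 16^K) * ((16:ℝ)^(4 * P.τ K + 5 * P.τ L + 11) * EE L)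
      ≤ ((Q (P.τ K)).card : ℝ) * (Om J).card * ((16:ℝ)^(4 * P.τ K + 5 * P.τ L + 11) * EE L) := by
    refine le_trans (le_of_eq ?_) h5
    rw [pow_add (16:ℝ) (4 * P.τ K + 5 * P.τ L + 11) K]; ring
  exact le_of_mul_le_mul_right h6 (by positivity)

end Pool.Agent.H601.BG
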