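import Mathlib

namespace Pool.Agent.H601.BG

/-- For every prime `q` there is a discrete logarithm with values below `q`. -/
theorem exists_lg (q : ℕ) (hq : q.Prime) : ∃ f : ℕ → ℕ, (∀ x, f x < q) ∧
    ∀ x y x' y' : ℕ, Nat.Coprime x q → Nat.Coprime y q → Nat.Coprime x' q → Nat.Coprime y' q →
      f x + f y = f x' + f y' → x * y ≡ x' * y' [MOD q] := by
  classical
  haveI := Fact.mk hq
  obtain ⟨g, hg⟩ := IsCyclic.exists_generator (α := (ZMod q)ˣ)
  have h1 : ∀ u : (ZMod q)ˣ, ∃ k < q, g ^ k = u := by
    intro u
    have hmem : u ∈ Submonoid.powers g := mem_powers_iff_mem_zpowers.2 (hg u)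
    obtain ⟨k, hk⟩ := hmem
    refine ⟨k % orderOf g, ?_, ?_⟩
    · have h2 : orderOf g ≤ Fintype.card (ZMod q)ˣ := orderOf_le_card_univ
      rw [ZMod.card_units] at h2
      have h3 : 0 < orderOf g := orderOf_pos g
      have h4 := Nat.mod_lt k h3
      have h5 := hq.pos
      omega
    · rw [pow_mod_orderOf]; exact hk
  choose k hk1 hk2 using h1
  refine ⟨fun x => if h : Nat.Coprime x q then k (ZMod.unitOfCoprime x h) else 0, ?_, ?_⟩
  · intro x
    by_cases h : Nat.Coprime x q
    · show (if h : Nat.Coprime x q then k (ZMod.unitOfCoprime x h) else 0) < q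
      rw [dif_pos h]; exact hk1 _
    · show (if h : Nat.Coprime x q then k (ZMod.unitOfCoprime x h) else 0) < q
      rw [dif_neg h]; exact hq.pos
  · intro x y x' y' hx hy hx' hy' h
    have h : (if h : Nat.Coprime x q then k (ZMod.unitOfCoprime x h) else 0)
        + (if h : Nat.Coprime y q then k (ZMod.unitOfCoprime y h) else 0)
        = (if h : Nat.Coprime x' q then k (ZMod.unitOfCoprime x' h) else 0)
        + (if h : Nat.Coprime y' q then k (ZMod.unitOfCoprime y' h) else 0) := h
    rw [dif_pos hx, dif_pos hy, dif_pos hx', dif_pos hy'] at h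
    have e : ZMod.unitOfCoprime x hx * ZMod.unitOfCoprime y hy
        = ZMod.unitOfCoprime x' hx' * ZMod.unitOfCoprime y' hy' := by
      rw [← hk2 (ZMod.unitOfCoprime x hx), ← hk2 (ZMod.unitOfCoprime y hy),
        ← hk2 (ZMod.unitOfCoprime x' hx'), ← hk2 (ZMod.unitOfCoprime y' hy'),
        ← pow_add, ← pow_add, h]
    have e2 := congrArg (fun u : (ZMod q)ˣ => (u : ZMod q)) e
    simp only [Units.val_mul, ZMod.coe_unitOfCoprime] at e2
    rw [← ZMod.natCast_eq_natCast_iff]
    push_cast
    exact e2

/-- A discrete logarithm modulo the prime `q`. -/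
noncomputable def lg (q x : ℕ) : ℕ :=
  open Classical in if h : q.Prime then (exists_lg q h).choose x else 0

theorem lg_lt {q : ℕ} (hq : q.Prime) (x : ℕ) : lg q x < q := by
  unfold lg
  rw [dif_pos hq]
  exact (exists_lg q hq).choose_spec.1 x

theorem lg_mul {q : ℕ} (hq : q.Prime) {x y x' y' : ℕ} (hx : Nat.Coprime x q)
    (hy : Nat.Coprime y q) (hx' : Nat.Coprime x' q) (hy' : Nat.Coprime y' q)
    (h : lg q x + lg q y = lg q x' + lg q y') : x * y ≡ x' * y' [MOD q] := by
  have e : ∀ z, lg q z = (exists_lg q hq).choose z := by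
    intro z
    unfold lg
    rw [dif_pos hq]
  rw [e, e, e, e] at h
  exact (exists_lg q hq).choose_spec.2 x y x' y' hx hy hx' hy' h

theorem lg_inj {q : ℕ} (hq : q.Prime) {x x' : ℕ} (hx : Nat.Coprime x q)
    (hx' : Nat.Coprime x' q) (h : lg q x = lg q x') : x ≡ x' [MOD q] := by
  have := lg_mul hq hx (Nat.coprime_one_left q) hx' (Nat.coprime_one_left q) (by rw [h])
  simpa using this

/-- Weights of the mixed radix expansion. -/
def W (q : ℕ → ℕ) (i : ℕ) : ℕ := ∏ j ∈ Finset.range i, 4 * q j

/-- The digits of the element attached to the number `x` at scale `K`. -/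
noncomputable def dg (q : ℕ → ℕ) (K x i : ℕ) : ℕ := if i < K then q i + lg (q i) x else 0

/-- The element attached to the number `x` at scale `K`. -/
noncomputable def el (q : ℕ → ℕ) (K x : ℕ) : ℕ :=
  ∑ i ∈ Finset.range K, dg q K x i * W q i

theorem el_eq (q : ℕ → ℕ) (K x N : ℕ) (h : K ≤ N) :
    el q K x = ∑ i ∈ Finset.range N, dg q K x i * W q i := by
  unfold el
  refine Finset.sum_subset (fun i hi => Finset.mem_range.2 (lt_of_lt_of_le (Finset.mem_range.1 hi) h)) ?_
  intro i _ hi
  have : ¬ i < K := fun h => hi (Finset.mem_range.2 h)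
  simp [dg, this]

theorem digits_lt (q : ℕ → ℕ) (N : ℕ) (d : ℕ → ℕ) (hd : ∀ i < N, d i < 4 * q i) :
    ∑ i ∈ Finset.range N, d i * W q i < W q N := by
  induction N with
  | zero => simp [W]
  | succ n ih =>
    rw [Finset.sum_range_succ]
    have h1 := ih (fun i hi => hd i (by omega))
    have h2 := hd n (by omega)
    have h3 : W q (n+1) = W q n * (4 * q n) := by
      unfold W; rw [Finset.prod_range_succ]
    rw [h3]
    calc _ < W q n + d n * W q n := by omega
      _ = W q n * (d n + 1) := by ring
      _ ≤ W q n * (4 * q n) := Nat.mul_le_mul_left _ h2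

theorem digits_unique (q : ℕ → ℕ) (N : ℕ) (d d' : ℕ → ℕ) (hd : ∀ i < N, d i < 4 * q i)
    (hd' : ∀ i < N, d' i < 4 * q i)
    (h : ∑ i ∈ Finset.range N, d i * W q i = ∑ i ∈ Finset.range N, d' i * W q i) :
    ∀ i < N, d i = d' i := by
  induction N with
  | zero => intro i hi; omega
  | succ n ih =>
    rw [Finset.sum_range_succ, Finset.sum_range_succ] at h
    have h1 := digits_lt q n d (fun i hi => hd i (by omega))
    have h1' := digits_lt q n d' (fun i hi => hd' i (by omega))
    have key : d n = d' n := by
      rcases Nat.lt_trichotomy (d n) (d' n) with hl | hl | hl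
      · exfalso
        have : (d n + 1) * W q n ≤ d' n * W q n := Nat.mul_le_mul_right _ hl
        have e : (d n + 1) * W q n = d n * W q n + W q n := by ring
        omega
      · exact hl
      · exfalso
        have : (d' n + 1) * W q n ≤ d n * W q n := Nat.mul_le_mul_right _ hl
        have e : (d' n + 1) * W q n = d' n * W q n + W q n := by ring
        omega
    rw [key] at h
    have h2 := ih (fun i hi => hd i (by omega)) (fun i hi => hd' i (by omega)) (by omega)
    intro i hi
    rcases Nat.lt_or_ge i n with hin | hin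
    · exact h2 i hin
    · have : i = n := by omega
      rw [this]; exact key

theorem el_lt (q : ℕ → ℕ) (hq : ∀ i, (q i).Prime) (K x : ℕ) : el q K x < W q K := by
  unfold el
  refine digits_lt q K _ ?_
  intro i hi
  have := lg_lt (hq i) x
  simp only [dg, hi, if_true]
  omega

/-- Equal sums: the scales agree, the lower digits give equal products, the upper digits
give equal factors. -/
theorem sum_struct (q : ℕ → ℕ) (hq : ∀ i, (q i).Prime) {K L K' L' x y x' y' : ℕ}
    (hL : L ≤ K) (hL' : L' ≤ K') (h : el q K x + el q L y = el q K' x' + el q L' y') :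
    K = K' ∧ L = L' ∧ (∀ i < L, lg (q i) x + lg (q i) y = lg (q i) x' + lg (q i) y') ∧
      (∀ i, L ≤ i → i < K → lg (q i) x = lg (q i) x') := by
  set N := max K K' with hN
  have hK : K ≤ N := le_max_left _ _
  have hK' : K' ≤ N := le_max_right _ _
  rw [el_eq q K x N hK, el_eq q L y N (hL.trans hK), el_eq q K' x' N hK',
    el_eq q L' y' N (hL'.trans hK'), ← Finset.sum_add_distrib, ← Finset.sum_add_distrib] at h
  have h2 : ∑ i ∈ Finset.range N, (dg q K x i + dg q L y i) * W q i
      = ∑ i ∈ Finset.range N, (dg q K' x' i + dg q L' y' i) * W q i := by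
    rw [Finset.sum_congr rfl (fun i _ => add_mul _ _ _), Finset.sum_congr rfl (fun i _ => add_mul _ _ _)]
    exact h
  have hb : ∀ (A x : ℕ) i, dg q A x i < 2 * q i := by
    intro A x i
    have := lg_lt (hq i) x
    have := (hq i).pos
    unfold dg
    split_ifs <;> omega
  have hpos : ∀ (A x : ℕ) i, i < A → q i ≤ dg q A x i := by
    intro A x i hi
    simp [dg, hi]
  have hzero : ∀ (A x : ℕ) i, A ≤ i → dg q A x i = 0 := by
    intro A x i hi
    have : ¬ i < A := by omega
    simp [dg, this]
  have h3 := digits_unique q N (fun i => dg q K x i + dg q L y i)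
    (fun i => dg q K' x' i + dg q L' y' i)
    (fun i _ => by have := hb K x i; have := hb L y i; omega)
    (fun i _ => by have := hb K' x' i; have := hb L' y' i; omega) h2
  have eK : K = K' := by
    rcases Nat.lt_trichotomy K K' with hl | hl | hl
    · exfalso
      have h4 := h3 K (by omega)
      rw [hzero K x K le_rfl, hzero L y K hL] at h4
      have h5 := hpos K' x' K hl
      have := (hq K).pos
      omega
    · exact hl
    · exfalso
      have h4 := h3 K' (by omega)
      rw [hzero K' x' K' le_rfl, hzero L' y' K' hL'] at h4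
      have h5 := hpos K x K' hl
      have := (hq K').pos
      omega
  subst eK
  have eL : L = L' := by
    rcases Nat.lt_trichotomy L L' with hl | hl | hl
    · exfalso
      have h4 := h3 L (by omega)
      rw [hzero L y L le_rfl] at h4
      have h5 := hpos K x' L (by omega)
      have h6 := hpos L' y' L hl
      have := hb K x L
      omega
    · exact hl
    · exfalso
      have h4 := h3 L' (by omega)
      rw [hzero L' y' L' le_rfl] at h4
      have h5 := hpos K x L' (by omega)
      have h6 := hpos L y L' hl
      have := hb K x' L'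
      omega
  subst eL
  refine ⟨rfl, rfl, ?_, ?_⟩
  · intro i hi
    have h4 := h3 i (by omega)
    have hiK : i < K := by omega
    simp only [dg, hi, hiK, if_true] at h4
    omega
  · intro i hi1 hi2
    have h4 := h3 i (by omega)
    have hiL : ¬ i < L := by omega
    simp only [dg, hiL, hi2, if_true, if_false] at h4
    omega

end Pool.Agent.H601.BG
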