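import Mathlib

open Real Filter

namespace Pool.Agent.H601.BG

/-- At most `g` unordered representations give at most `2g` ordered ones. -/
theorem ordered_le (A : Set ℕ) (n g : ℕ)
    (h : {p : ℕ × ℕ | p.1 ∈ A ∧ p.2 ∈ A ∧ p.1 ≤ p.2 ∧ p.1 + p.2 = n}.ncard ≤ g) :
    {p : ℕ × ℕ | p.1 ∈ A ∧ p.2 ∈ A ∧ p.1 + p.2 = n}.ncard ≤ 2 * g := by
  classical
  set S := {p : ℕ × ℕ | p.1 ∈ A ∧ p.2 ∈ A ∧ p.1 ≤ p.2 ∧ p.1 + p.2 = n} with hS
  have hfin : S.Finite := by
    refine Set.Finite.subset ((Set.finite_Iic n).prod (Set.finite_Iic n)) ?_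
    rintro ⟨a, b⟩ ⟨_, _, _, h⟩
    simp only at h
    simp only [Set.mem_prod, Set.mem_Iic]
    constructor <;> omega
  have hsub : {p : ℕ × ℕ | p.1 ∈ A ∧ p.2 ∈ A ∧ p.1 + p.2 = n} ⊆ S ∪ Prod.swap '' S := by
    rintro ⟨a, b⟩ ⟨h1, h2, h3⟩
    simp only at h1 h2 h3
    rcases le_total a b with h4 | h4
    · exact Or.inl ⟨h1, h2, h4, h3⟩
    · exact Or.inr ⟨(b, a), ⟨h2, h1, h4, by simp only; omega⟩, rfl⟩
  have h1 := Set.ncard_le_ncard hsub (hfin.union (hfin.image _))
  have h2 := Set.ncard_union_le S (Prod.swap '' S)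
  have h3 := Set.ncard_image_le (f := Prod.swap) hfin
  omega

theorem infinite_of_growth (A : Set ℕ) (c : ℝ) (hc : 0 < c)
    (h : ∀ᶠ N : ℕ in atTop, (N:ℝ)^c ≤ ((A ∩ Set.Icc 1 N).ncard : ℝ)) : A.Infinite := by
  intro hfin
  have h1 : Tendsto (fun N : ℕ => (N:ℝ)^c) atTop atTop :=
    (tendsto_rpow_atTop hc).comp tendsto_natCast_atTop_atTop
  obtain ⟨N, h2, h3⟩ := (h.and (h1.eventually_gt_atTop (A.ncard : ℝ))).exists
  have h4 : (A ∩ Set.Icc 1 N).ncard ≤ A.ncard := Set.ncard_le_ncard Set.inter_subset_left hfin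
  have h5 : ((A ∩ Set.Icc 1 N).ncard : ℝ) ≤ A.ncard := by exact_mod_cast h4
  linarith

/-- From the counting function to the increasing enumeration. -/
theorem seq_of_growth (A : Set ℕ) (hpos : ∀ a ∈ A, 0 < a) (c : ℝ) (hc : 0 < c)
    (h : ∀ ε : ℝ, 0 < ε → ∀ᶠ N : ℕ in atTop, (N:ℝ)^(c - ε) ≤ ((A ∩ Set.Icc 1 N).ncard : ℝ)) :
    ∃ a : ℕ → ℕ, StrictMono a ∧ Set.range a = A ∧
      ∀ ε : ℝ, 0 < ε → ∃ C : ℝ, 0 < C ∧ ∀ n : ℕ, (a n : ℝ) ≤ C * ((n:ℝ) + 1)^(1/c + ε) := by
  classical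
  have hinf : A.Infinite := by
    refine infinite_of_growth A (c - c/2) (by linarith) (h (c/2) (by linarith))
  have hinf' : (setOf (fun n => n ∈ A)).Infinite := hinf
  refine ⟨Nat.nth (fun n => n ∈ A), Nat.nth_strictMono hinf', ?_, ?_⟩
  · rw [Nat.range_nth_of_infinite hinf']; rfl
  · intro ε hε
    have hδ : 0 < c - c / (1 + c * ε) := by
      have h1 : c / (1 + c * ε) < c := by
        rw [div_lt_iff₀ (by positivity)]
        nlinarith [mul_pos hc (mul_pos hc hε)]
      linarith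
    have h1 := h (c - c / (1 + c * ε)) hδ
    have e1 : c - (c - c / (1 + c * ε)) = c / (1 + c * ε) := by ring
    rw [e1] at h1
    obtain ⟨N0, hN0⟩ := eventually_atTop.1 h1
    refine ⟨(N0:ℝ) + 1, by positivity, fun n => ?_⟩
    set N := Nat.nth (fun n => n ∈ A) n with hN
    have hb1 : (1:ℝ) ≤ ((n:ℝ) + 1)^(1/c + ε) := by
      apply Real.one_le_rpow
      · have : (0:ℝ) ≤ n := by positivity
        linarith
      · positivity
    rcases Nat.lt_or_ge N N0 with hlt | hge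
    · have h2 : (N:ℝ) ≤ N0 := by exact_mod_cast hlt.le
      have h3 : (0:ℝ) ≤ N0 := by positivity
      nlinarith
    · have h2 := hN0 N hge
      have hcount : (A ∩ Set.Icc 1 N).ncard ≤ n + 1 := by
        have hsub : A ∩ Set.Icc 1 N ⊆ (((Finset.range (n+1)).image (Nat.nth (fun n => n ∈ A)) :
            Finset ℕ) : Set ℕ) := by
          rintro x ⟨hx, _, hxN⟩
          rw [Finset.mem_coe, Finset.mem_image]
          have hx' : x ∈ Set.range (Nat.nth (fun n => n ∈ A)) := by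
            rw [Nat.range_nth_of_infinite hinf']; exact hx
          obtain ⟨m, hm⟩ := hx'
          refine ⟨m, ?_, hm⟩
          rw [Finset.mem_range]
          by_contra hcon
          have h4 : n < m := by omega
          have h5 := Nat.nth_strictMono hinf' h4
          omega
        refine (Set.ncard_le_ncard hsub (Finset.finite_toSet _)).trans ?_
        rw [Set.ncard_coe_finset]
        exact Finset.card_image_le.trans (by rw [Finset.card_range])
      have h3 : (N:ℝ)^(c / (1 + c * ε)) ≤ (n:ℝ) + 1 := by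
        refine h2.trans ?_
        exact_mod_cast hcount
      have hp : 0 < c / (1 + c * ε) := by positivity
      have h4 : ((N:ℝ)^(c / (1 + c * ε)))^(1/c + ε) ≤ ((n:ℝ) + 1)^(1/c + ε) :=
        Real.rpow_le_rpow (by positivity) h3 (by positivity)
      rw [← Real.rpow_mul (by positivity)] at h4
      have e2 : c / (1 + c * ε) * (1/c + ε) = 1 := by
        have h5 : (1 + c * ε) ≠ 0 := by positivity
        field_simp
      rw [e2, Real.rpow_one] at h4
      have h6 : (0:ℝ) ≤ N0 := by positivity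
      nlinarith

end Pool.Agent.H601.BG
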