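import Mathlib

namespace Pool.Agent.H601.BG

/-- The linear identity behind a dangerous triple. -/
theorem core_id (x0 x1 x2 y0 y1 y2 D R m1 m2 s1 s2 : ℤ)
    (hm1 : x1 * y1 - x0 * y0 = m1 * D) (hm2 : x2 * y2 - x0 * y0 = m2 * D)
    (hs1 : x1 - x0 = s1 * R) (hs2 : x2 - x0 = s2 * R) :
    x0 * (m2 * (y1 - y0) - m1 * (y2 - y0)) = R * (m1 * s2 * y2 - m2 * s1 * y1) := by
  have e1 : x1 = x0 + s1 * R := by linarith
  have e2 : x2 = x0 + s2 * R := by linarith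
  subst e1
  subst e2
  linear_combination m2 * hm1 - m1 * hm2

/-- The integer `κ`. -/
theorem core_kappa (x0 x1 x2 y0 y1 y2 D R m1 m2 s1 s2 : ℤ) (hR : 0 < R)
    (hm1 : x1 * y1 - x0 * y0 = m1 * D) (hm2 : x2 * y2 - x0 * y0 = m2 * D)
    (hs1 : x1 - x0 = s1 * R) (hs2 : x2 - x0 = s2 * R) (hcop : IsCoprime R x0) :
    ∃ κ : ℤ, m2 * (y1 - y0) - m1 * (y2 - y0) = κ * R ∧
      x0 * κ = m1 * s2 * y2 - m2 * s1 * y1 := by
  have h := core_id x0 x1 x2 y0 y1 y2 D R m1 m2 s1 s2 hm1 hm2 hs1 hs2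
  have h1 : R ∣ x0 * (m2 * (y1 - y0) - m1 * (y2 - y0)) := ⟨_, h⟩
  have h2 : R ∣ (m2 * (y1 - y0) - m1 * (y2 - y0)) := hcop.dvd_of_dvd_mul_left h1
  obtain ⟨κ, hκ⟩ := h2
  refine ⟨κ, by rw [hκ]; ring, ?_⟩
  rw [hκ] at h
  have h3 : R * (x0 * κ) = R * (m1 * s2 * y2 - m2 * s1 * y1) := by rw [← h]; ring
  exact mul_left_cancel₀ hR.ne' h3

/-- `κ` is not zero. -/
theorem kappa_ne (x0 y1 y2 m1 m2 s1 s2 κ : ℤ) (hp1 : Prime y1) (hp2 : Prime y2)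
    (hne : ¬ y2 ∣ y1) (hm2 : m2 ≠ 0) (hs1 : s1 ≠ 0)
    (hsz : |m2 * s1| < y2)
    (h : x0 * κ = m1 * s2 * y2 - m2 * s1 * y1) : κ ≠ 0 := by
  intro h0
  rw [h0, mul_zero] at h
  have h1 : y2 ∣ (m2 * s1) * y1 := ⟨m1 * s2, by linarith⟩
  rcases hp2.dvd_or_dvd h1 with h2 | h2
  · have h3 := Int.le_of_dvd (abs_pos.2 (mul_ne_zero hm2 hs1)) ((dvd_abs _ _).2 h2)
    linarith
  · exact hne h2

/-- The parameters determine the triple. -/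
theorem core_inj (x0 y1 m1 m2 κ s1 R : ℤ)
    (x1 x2 y0 y2 D s2 x1' x2' y0' y2' D' s2' : ℤ)
    (hp : Prime y2') (hdiv : y2' ∣ y2 → y2 = y2')
    (hm1 : m1 ≠ 0) (hm12 : m1 ≠ m2) (hs2 : s2 ≠ 0) (hy2 : y2' ≠ 0)
    (hsz : |m1 * s2| < y2')
    (a1 : x1 * y1 - x0 * y0 = m1 * D)
    (a3 : x1 - x0 = s1 * R) (a4 : x2 - x0 = s2 * R)
    (a5 : m2 * (y1 - y0) - m1 * (y2 - y0) = κ * R)
    (a6 : x0 * κ = m1 * s2 * y2 - m2 * s1 * y1)
    (b1 : x1' * y1 - x0 * y0' = m1 * D')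
    (b3 : x1' - x0 = s1 * R) (b4 : x2' - x0 = s2' * R)
    (b5 : m2 * (y1 - y0') - m1 * (y2' - y0') = κ * R)
    (b6 : x0 * κ = m1 * s2' * y2' - m2 * s1 * y1) :
    y2 = y2' ∧ y0 = y0' ∧ x1 = x1' ∧ x2 = x2' ∧ D = D' := by
  have h1 : m1 * s2 * y2 = m1 * s2' * y2' := by linarith
  have hy : y2 = y2' := by
    have h2 : y2' ∣ (m1 * s2) * y2 := ⟨m1 * s2', by rw [h1]; ring⟩
    rcases hp.dvd_or_dvd h2 with h3 | h3
    · exfalso
      have h4 := Int.le_of_dvd (abs_pos.2 (mul_ne_zero hm1 hs2)) ((dvd_abs _ _).2 h3)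
      linarith
    · exact hdiv h3
  subst hy
  have hs : s2 = s2' := by
    have h2 : (m1 * y2) * s2 = (m1 * y2) * s2' := by linarith
    exact mul_left_cancel₀ (mul_ne_zero hm1 hy2) h2
  subst hs
  have hy0 : y0 = y0' := by
    have h2 : (m1 - m2) * y0 = (m1 - m2) * y0' := by linarith
    exact mul_left_cancel₀ (sub_ne_zero.2 hm12) h2
  subst hy0
  have hx1 : x1 = x1' := by linarith
  subst hx1
  have hx2 : x2 = x2' := by linarith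
  subst hx2
  refine ⟨rfl, rfl, rfl, rfl, ?_⟩
  have h2 : m1 * D = m1 * D' := by rw [← a1, ← b1]
  exact mul_left_cancel₀ hm1 h2

/-- Nonzero integers `m` with `|m| A ≤ B`. -/
noncomputable def bset (A B : ℕ) : Finset ℤ :=
  (Finset.Icc (-(B:ℤ)) B).filter (fun m => m ≠ 0 ∧ m.natAbs * A ≤ B)

theorem mem_bset {A B : ℕ} (hA : 0 < A) {m : ℤ} (h0 : m ≠ 0) (h : m.natAbs * A ≤ B) :
    m ∈ bset A B := by
  rw [bset, Finset.mem_filter, Finset.mem_Icc]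
  refine ⟨?_, h0, h⟩
  have h1 : m.natAbs ≤ B := le_trans (Nat.le_mul_of_pos_right _ hA) h
  omega

theorem card_bset (A B : ℕ) (hA : 0 < A) : (bset A B).card * A ≤ 2 * B := by
  obtain ⟨b, hb⟩ : ∃ b, b = B / A := ⟨_, rfl⟩
  have hsub : bset A B ⊆ (Finset.Icc (-(b:ℤ)) (b:ℤ)).erase 0 := by
    intro m hm
    rw [bset, Finset.mem_filter] at hm
    obtain ⟨_, h0, h1⟩ := hm
    rw [Finset.mem_erase, Finset.mem_Icc]
    have h2 : m.natAbs ≤ b := hb ▸ (Nat.le_div_iff_mul_le hA).2 h1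
    refine ⟨h0, ?_, ?_⟩ <;> omega
  have h1 := Finset.card_le_card hsub
  rw [Finset.card_erase_of_mem (by rw [Finset.mem_Icc]; constructor <;> omega), Int.card_Icc] at h1
  have h2 : (((b:ℤ) + 1 - -(b:ℤ)).toNat) - 1 = 2 * b := by omega
  rw [h2] at h1
  calc (bset A B).card * A ≤ (2 * b) * A := Nat.mul_le_mul_right _ h1
    _ = 2 * (b * A) := by ring
    _ ≤ 2 * B := Nat.mul_le_mul_left _ (hb ▸ Nat.div_mul_le_self _ _)

end Pool.Agent.H601.BG
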