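import Pool.Agent.H601.BG.Primes
import Pool.Agent.H601.BG.Lg
import Pool.Agent.H601.BG.Tri

namespace Pool.Agent.H601.BG

/-- Admissible sequences of moduli. -/
def Adm (q : ℕ → ℕ) : Prop := ∀ i, q i ∈ Q (i+3)

/-- Exponent of the total modulus at scale `K`. -/
def kap (K : ℕ) : ℕ := ∑ i ∈ Finset.range K, (i+3)

/-- Exponent of the moduli between `L` and `K`. -/
def rl (L K : ℕ) : ℕ := ∑ i ∈ Finset.Ico L K, (i+3)

/-- Product of the lower moduli. -/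
def DD (q : ℕ → ℕ) (L : ℕ) : ℕ := ∏ i ∈ Finset.range L, q i

/-- Product of the upper moduli. -/
def RR (q : ℕ → ℕ) (L K : ℕ) : ℕ := ∏ i ∈ Finset.Ico L K, q i

/-- Loss in the number of choices for the lower moduli. -/
def EE (L : ℕ) : ℕ := ∏ i ∈ Finset.range L, (i+3)

theorem kap_add {L K : ℕ} (h : L ≤ K) : kap L + rl L K = kap K :=
  Finset.sum_range_add_sum_Ico _ h

theorem DD_mul {q : ℕ → ℕ} {L K : ℕ} (h : L ≤ K) : DD q L * RR q L K = DD q K :=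
  Finset.prod_range_mul_prod_Ico _ h

theorem kap_mono {L K : ℕ} (h : L ≤ K) : kap L ≤ kap K := by
  rw [← kap_add h]; omega

theorem Adm.prime {q : ℕ → ℕ} (h : Adm q) (i : ℕ) : (q i).Prime := (mem_Q (h i)).1

theorem Adm.gt {q : ℕ → ℕ} (h : Adm q) (i : ℕ) : 16^(i+3) < q i := (mem_Q (h i)).2.1

theorem Adm.le {q : ℕ → ℕ} (h : Adm q) (i : ℕ) : q i ≤ 16^(i+4) := (mem_Q (h i)).2.2

theorem Adm.ne {q : ℕ → ℕ} (h : Adm q) {i j : ℕ} (hij : i ≠ j) : q i ≠ q j := by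
  intro e
  have := Finset.disjoint_left.1 (Q_disj (s := i+3) (t := j+3) (by omega)) (h i)
  rw [e] at this
  exact this (h j)

theorem DD_ge {q : ℕ → ℕ} (h : Adm q) (L : ℕ) : 16^(kap L) ≤ DD q L := by
  unfold kap DD
  rw [← Finset.prod_pow_eq_pow_sum]
  exact Finset.prod_le_prod' (fun i _ => (h.gt i).le)

theorem RR_ge {q : ℕ → ℕ} (h : Adm q) (L K : ℕ) : 16^(rl L K) ≤ RR q L K := by
  unfold rl RR
  rw [← Finset.prod_pow_eq_pow_sum]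
  exact Finset.prod_le_prod' (fun i _ => (h.gt i).le)

theorem DD_pos {q : ℕ → ℕ} (h : Adm q) (L : ℕ) : 0 < DD q L :=
  Finset.prod_pos (fun i _ => (h.prime i).pos)

theorem RR_pos {q : ℕ → ℕ} (h : Adm q) (L K : ℕ) : 0 < RR q L K :=
  Finset.prod_pos (fun i _ => (h.prime i).pos)

/-- Size parameters of the construction. -/
structure Par where
  τ : ℕ → ℕ
  K0 : ℕ
  K0pos : 1 ≤ K0
  mono : ∀ K L, K0 ≤ L → L < K → τ L < τ K
  h2 : ∀ K, K0 ≤ K → K + 3 ≤ τ K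
  h3 : ∀ K, K0 ≤ K → 2 * τ K + 3 ≤ kap K
  h4 : ∀ K L, K0 ≤ L → L < K → kap L < τ K + τ L + 2 →
    (16:ℝ)^(4 * τ K + 5 * τ L + 11 + K) * EE L ≤ 16^(2 * kap K + 2 * kap L)

theorem cop_mod (P : Par) {q : ℕ → ℕ} (hq : Adm q) {K x i : ℕ} (hK : P.K0 ≤ K)
    (hx : x ∈ Q (P.τ K)) (hi : i < K) : Nat.Coprime x (q i) := by
  obtain ⟨hp, hgt, _⟩ := mem_Q hx
  rw [Nat.coprime_primes hp (hq.prime i)]
  have h1 := P.h2 K hK
  have h2 : 16^(i+4) ≤ 16^(P.τ K) := Nat.pow_le_pow_right (by norm_num) (by omega)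
  have h3 := hq.le i
  omega

theorem dvd_DD {q : ℕ → ℕ} (hq : Adm q) {L : ℕ} {z : ℤ} (h : ∀ i < L, (q i : ℤ) ∣ z) :
    (DD q L : ℤ) ∣ z := by
  unfold DD
  push_cast
  refine Finset.prod_dvd_of_coprime ?_ (fun i hi => h i (Finset.mem_range.1 hi))
  intro i _ j _ hij
  exact Nat.isCoprime_iff_coprime.2 ((Nat.coprime_primes (hq.prime i) (hq.prime j)).2 (hq.ne hij))

theorem dvd_RR {q : ℕ → ℕ} (hq : Adm q) {L K : ℕ} {z : ℤ}
    (h : ∀ i, L ≤ i → i < K → (q i : ℤ) ∣ z) : (RR q L K : ℤ) ∣ z := by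
  unfold RR
  push_cast
  refine Finset.prod_dvd_of_coprime ?_
    (fun i hi => h i (Finset.mem_Ico.1 hi).1 (Finset.mem_Ico.1 hi).2)
  intro i _ j _ hij
  exact Nat.isCoprime_iff_coprime.2 ((Nat.coprime_primes (hq.prime i) (hq.prime j)).2 (hq.ne hij))

/-- Equal sums of elements at scales `L ≤ K`. -/
theorem sum_dvd (P : Par) {q : ℕ → ℕ} (hq : Adm q) {K L x y x' y' : ℕ} (hL0 : P.K0 ≤ L)
    (hLK : L ≤ K) (hx : x ∈ Q (P.τ K)) (hx' : x' ∈ Q (P.τ K)) (hy : y ∈ Q (P.τ L))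
    (hy' : y' ∈ Q (P.τ L)) (h1 : ∀ i < L, lg (q i) x + lg (q i) y = lg (q i) x' + lg (q i) y')
    (h2 : ∀ i, L ≤ i → i < K → lg (q i) x = lg (q i) x') :
    (DD q L : ℤ) ∣ (x:ℤ) * y - (x':ℤ) * y' ∧ (RR q L K : ℤ) ∣ (x:ℤ) - x' := by
  constructor
  · refine dvd_DD hq (fun i hi => ?_)
    have h3 := lg_mul (hq.prime i) (cop_mod P hq (hL0.trans hLK) hx (by omega))
      (cop_mod P hq hL0 hy hi) (cop_mod P hq (hL0.trans hLK) hx' (by omega))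
      (cop_mod P hq hL0 hy' hi) (h1 i hi)
    have h4 := (Nat.modEq_iff_dvd.1 h3.symm)
    push_cast at h4
    exact h4
  · refine dvd_RR hq (fun i hi1 hi2 => ?_)
    have h3 := lg_inj (hq.prime i) (cop_mod P hq (hL0.trans hLK) hx hi2)
      (cop_mod P hq (hL0.trans hLK) hx' hi2) (h2 i hi1 hi2)
    have h4 := (Nat.modEq_iff_dvd.1 h3.symm)
    exact h4

theorem prod_bound {K L : ℕ} {x y x' y' a b : ℕ} (hx : x ∈ Q a) (hx' : x' ∈ Q a)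
    (hy : y ∈ Q b) (hy' : y' ∈ Q b) :
    |(x:ℤ) * y - (x':ℤ) * y'| < 16^(a + b + 2) := by
  obtain ⟨_, h1, h2⟩ := mem_Q hx
  obtain ⟨_, h3, h4⟩ := mem_Q hx'
  obtain ⟨_, h5, h6⟩ := mem_Q hy
  obtain ⟨_, h7, h8⟩ := mem_Q hy'
  have e : (16:ℕ)^(a+b+2) = 16^(a+1) * 16^(b+1) := by rw [← pow_add]; congr 1; omega
  have h9 : x * y ≤ 16^(a+b+2) := by rw [e]; exact Nat.mul_le_mul h2 h6
  have h10 : x' * y' ≤ 16^(a+b+2) := by rw [e]; exact Nat.mul_le_mul h4 h8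
  have h11 : 0 < x * y := Nat.mul_pos (by omega) (by omega)
  have h12 : 0 < x' * y' := Nat.mul_pos (by omega) (by omega)
  have g9 : (x:ℤ) * y ≤ 16^(a+b+2) := by exact_mod_cast h9
  have g10 : (x':ℤ) * y' ≤ 16^(a+b+2) := by exact_mod_cast h10
  have g11 : (0:ℤ) < (x:ℤ) * y := by exact_mod_cast h11
  have g12 : (0:ℤ) < (x':ℤ) * y' := by exact_mod_cast h12
  rw [abs_lt]
  constructor <;> linarith

/-- Equal products of primes. -/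
theorem prime_pair {x y x' y' : ℕ} (hx : x.Prime) (hx' : x'.Prime) (hy' : y'.Prime)
    (h : x * y = x' * y') : (x = x' ∧ y = y') ∨ (x = y' ∧ y = x') := by
  have h1 : x ∣ x' * y' := ⟨y, h.symm⟩
  rcases (hx.dvd_mul).1 h1 with h2 | h2
  · have e := (Nat.prime_dvd_prime_iff_eq hx hx').1 h2
    subst e
    exact Or.inl ⟨rfl, Nat.eq_of_mul_eq_mul_left hx.pos h⟩
  · have e := (Nat.prime_dvd_prime_iff_eq hx hy').1 h2
    subst e
    refine Or.inr ⟨rfl, Nat.eq_of_mul_eq_mul_left hx.pos ?_⟩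
    rw [h, mul_comm]

theorem uniq_of_dvd {q : ℕ → ℕ} (hq : Adm q) {L a b x y x' y' : ℕ} (hx : x ∈ Q a)
    (hx' : x' ∈ Q a) (hy : y ∈ Q b) (hy' : y' ∈ Q b) (hab : a + b + 2 ≤ kap L)
    (h : (DD q L : ℤ) ∣ (x:ℤ) * y - (x':ℤ) * y') : x * y = x' * y' := by
  have h1 := prod_bound (K := 0) (L := 0) hx hx' hy hy'
  have h2 : (16:ℤ)^(a+b+2) ≤ DD q L := by
    have : (16:ℕ)^(a+b+2) ≤ DD q L :=
      (Nat.pow_le_pow_right (by norm_num) hab).trans (DD_ge hq L)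
    exact_mod_cast this
  have h3 := Int.eq_zero_of_abs_lt_dvd h (lt_of_lt_of_le h1 h2)
  have h4 : (x:ℤ) * y = (x':ℤ) * y' := by linarith
  exact_mod_cast h4

/-- The dangerous configurations. -/
def Cd (q : ℕ → ℕ) (L K x0 x1 x2 y0 y1 y2 : ℕ) : Prop :=
  (DD q L : ℤ) ∣ (x1:ℤ) * y1 - (x0:ℤ) * y0 ∧ (DD q L : ℤ) ∣ (x2:ℤ) * y2 - (x0:ℤ) * y0 ∧
  (RR q L K : ℤ) ∣ (x1:ℤ) - x0 ∧ (RR q L K : ℤ) ∣ (x2:ℤ) - x0 ∧
  x0 ≠ x1 ∧ x0 ≠ x2 ∧ x1 ≠ x2 ∧ y0 ≠ y1 ∧ y0 ≠ y2 ∧ y1 ≠ y2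

theorem natAbs_le {m : ℤ} {A B : ℕ} (h : |m| * (A:ℤ) ≤ (B:ℤ)) : m.natAbs * A ≤ B := by
  zify
  exact h

/-- The parameters of a dangerous configuration. -/
theorem params (P : Par) {q : ℕ → ℕ} (hq : Adm q) {K L x0 x1 x2 y0 y1 y2 : ℕ}
    (hL0 : P.K0 ≤ L) (hLK : L < K)
    (hx0 : x0 ∈ Q (P.τ K)) (hx1 : x1 ∈ Q (P.τ K)) (hx2 : x2 ∈ Q (P.τ K))
    (hy0 : y0 ∈ Q (P.τ L)) (hy1 : y1 ∈ Q (P.τ L)) (hy2 : y2 ∈ Q (P.τ L))
    (h : Cd q L K x0 x1 x2 y0 y1 y2) :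
    ∃ m1 m2 κ s1 s2 : ℤ,
      (x1:ℤ) * y1 - (x0:ℤ) * y0 = m1 * (DD q L : ℤ) ∧
      (x2:ℤ) * y2 - (x0:ℤ) * y0 = m2 * (DD q L : ℤ) ∧
      (x1:ℤ) - x0 = s1 * (RR q L K : ℤ) ∧ (x2:ℤ) - x0 = s2 * (RR q L K : ℤ) ∧
      m2 * ((y1:ℤ) - y0) - m1 * ((y2:ℤ) - y0) = κ * (RR q L K : ℤ) ∧
      (x0:ℤ) * κ = m1 * s2 * y2 - m2 * s1 * y1 ∧
      m1 ≠ 0 ∧ m1 ≠ m2 ∧ s2 ≠ 0 ∧ |m1 * s2| ≤ 16^(P.τ L) ∧
      m1 ∈ bset (16^(kap L)) (16^(P.τ K + P.τ L + 2)) ∧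
      m2 ∈ bset (16^(kap L)) (16^(P.τ K + P.τ L + 2)) ∧
      κ ∈ bset (16^(kap K)) (16^(P.τ K + 2 * P.τ L + 4)) ∧
      s1 ∈ bset (16^(rl L K)) (16^(P.τ K + 1)) := by
  obtain ⟨d1, d2, r1, r2, n1, n2, n3, n4, n5, n6⟩ := h
  obtain ⟨m1, hm1⟩ := d1
  obtain ⟨m2, hm2⟩ := d2
  obtain ⟨s1, hs1⟩ := r1
  obtain ⟨s2, hs2⟩ := r2
  have hK0 : P.K0 ≤ K := by omega
  have hm1' : (x1:ℤ) * y1 - (x0:ℤ) * y0 = m1 * (DD q L : ℤ) := by rw [hm1]; ring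
  have hm2' : (x2:ℤ) * y2 - (x0:ℤ) * y0 = m2 * (DD q L : ℤ) := by rw [hm2]; ring
  have hs1' : (x1:ℤ) - x0 = s1 * (RR q L K : ℤ) := by rw [hs1]; ring
  have hs2' : (x2:ℤ) - x0 = s2 * (RR q L K : ℤ) := by rw [hs2]; ring
  have hDpos : (0:ℤ) < (DD q L : ℤ) := by exact_mod_cast DD_pos hq L
  have hRpos : (0:ℤ) < (RR q L K : ℤ) := by exact_mod_cast RR_pos hq L K
  obtain ⟨px0, gx0, lx0⟩ := mem_Q hx0
  obtain ⟨px1, gx1, lx1⟩ := mem_Q hx1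
  obtain ⟨px2, gx2, lx2⟩ := mem_Q hx2
  obtain ⟨py0, gy0, ly0⟩ := mem_Q hy0
  obtain ⟨py1, gy1, ly1⟩ := mem_Q hy1
  obtain ⟨py2, gy2, ly2⟩ := mem_Q hy2
  have hcop : IsCoprime (RR q L K : ℤ) (x0:ℤ) := by
    rw [Nat.isCoprime_iff_coprime]
    unfold RR
    refine Nat.Coprime.prod_left (fun i hi => ?_)
    exact (cop_mod P hq hK0 hx0 (Finset.mem_Ico.1 hi).2).symm
  obtain ⟨κ, hκ1, hκ2⟩ := core_kappa x0 x1 x2 y0 y1 y2 (DD q L) (RR q L K) m1 m2 s1 s2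
    hRpos hm1' hm2' hs1' hs2' hcop
  have hxy : ∀ {x y : ℕ}, x ∈ Q (P.τ K) → y ∈ Q (P.τ L) → x ≠ y := by
    intro x y hx hy e
    have := Finset.disjoint_left.1 (Q_disj (s := P.τ K) (t := P.τ L)
      (P.mono K L hL0 hLK).ne') hx
    rw [e] at this
    exact this hy
  -- nonvanishing
  have hm1n : m1 ≠ 0 := by
    intro e
    rw [e, zero_mul] at hm1'
    have e1 : (x1:ℤ) * y1 = (x0:ℤ) * y0 := by linarith
    have e2 : x1 * y1 = x0 * y0 := by exact_mod_cast e1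
    rcases prime_pair px1 px0 py0 e2 with ⟨e3, _⟩ | ⟨e3, _⟩
    · exact n1 e3.symm
    · exact hxy hx1 hy0 e3
  have hm2n : m2 ≠ 0 := by
    intro e
    rw [e, zero_mul] at hm2'
    have e1 : (x2:ℤ) * y2 = (x0:ℤ) * y0 := by linarith
    have e2 : x2 * y2 = x0 * y0 := by exact_mod_cast e1
    rcases prime_pair px2 px0 py0 e2 with ⟨e3, _⟩ | ⟨e3, _⟩
    · exact n2 e3.symm
    · exact hxy hx2 hy0 e3
  have hm12 : m1 ≠ m2 := by
    intro e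
    rw [← e] at hm2'
    have e1 : (x1:ℤ) * y1 = (x2:ℤ) * y2 := by linarith
    have e2 : x1 * y1 = x2 * y2 := by exact_mod_cast e1
    rcases prime_pair px1 px2 py2 e2 with ⟨e3, _⟩ | ⟨e3, _⟩
    · exact n3 e3
    · exact hxy hx1 hy2 e3
  have hs1n : s1 ≠ 0 := by
    intro e
    rw [e, zero_mul] at hs1'
    have : (x1:ℤ) = x0 := by linarith
    exact n1 (by exact_mod_cast this.symm)
  have hs2n : s2 ≠ 0 := by
    intro e
    rw [e, zero_mul] at hs2'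
    have : (x2:ℤ) = x0 := by linarith
    exact n2 (by exact_mod_cast this.symm)
  -- bounds
  have bD : (16:ℤ)^(kap L) ≤ DD q L := by exact_mod_cast DD_ge hq L
  have bR : (16:ℤ)^(rl L K) ≤ RR q L K := by exact_mod_cast RR_ge hq L K
  have bDR : (16:ℤ)^(kap K) ≤ (DD q L : ℤ) * (RR q L K : ℤ) := by
    have h1 : 16^(kap K) ≤ DD q L * RR q L K := by
      rw [DD_mul hLK.le]; exact DD_ge hq K
    exact_mod_cast h1
  have am1 : |m1| * (DD q L : ℤ) ≤ 16^(P.τ K + P.τ L + 2) := by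
    have h1 := prod_bound (K := 0) (L := 0) hx1 hx0 hy1 hy0
    rw [hm1', abs_mul, abs_of_pos hDpos] at h1
    exact h1.le
  have am2 : |m2| * (DD q L : ℤ) ≤ 16^(P.τ K + P.τ L + 2) := by
    have h1 := prod_bound (K := 0) (L := 0) hx2 hx0 hy2 hy0
    rw [hm2', abs_mul, abs_of_pos hDpos] at h1
    exact h1.le
  have zx0 : (x0:ℤ) ≤ 16^(P.τ K + 1) := by exact_mod_cast lx0
  have zx1 : (x1:ℤ) ≤ 16^(P.τ K + 1) := by exact_mod_cast lx1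
  have zx2 : (x2:ℤ) ≤ 16^(P.τ K + 1) := by exact_mod_cast lx2
  have zy0 : (y0:ℤ) ≤ 16^(P.τ L + 1) := by exact_mod_cast ly0
  have zy1 : (y1:ℤ) ≤ 16^(P.τ L + 1) := by exact_mod_cast ly1
  have zy2 : (y2:ℤ) ≤ 16^(P.τ L + 1) := by exact_mod_cast ly2
  have as1 : |s1| * (RR q L K : ℤ) ≤ 16^(P.τ K + 1) := by
    have h1 : |(x1:ℤ) - x0| ≤ 16^(P.τ K + 1) := by
      rw [abs_le]; constructor
      · have : (0:ℤ) ≤ x1 := by positivity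
        linarith
      · have : (0:ℤ) ≤ x0 := by positivity
        linarith
    rw [hs1', abs_mul, abs_of_pos hRpos] at h1
    exact h1
  have as2 : |s2| * (RR q L K : ℤ) ≤ 16^(P.τ K + 1) := by
    have h1 : |(x2:ℤ) - x0| ≤ 16^(P.τ K + 1) := by
      rw [abs_le]; constructor
      · have : (0:ℤ) ≤ x2 := by positivity
        linarith
      · have : (0:ℤ) ≤ x0 := by positivity
        linarith
    rw [hs2', abs_mul, abs_of_pos hRpos] at h1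
    exact h1
  have ay1 : |(y1:ℤ) - y0| ≤ 16^(P.τ L + 1) := by
    rw [abs_le]; constructor
    · have : (0:ℤ) ≤ y1 := by positivity
      linarith
    · have : (0:ℤ) ≤ y0 := by positivity
      linarith
  have ay2 : |(y2:ℤ) - y0| ≤ 16^(P.τ L + 1) := by
    rw [abs_le]; constructor
    · have : (0:ℤ) ≤ y2 := by positivity
      linarith
    · have : (0:ℤ) ≤ y0 := by positivity
      linarith
  have aκ : |κ| * (16:ℤ)^(kap K) ≤ 16^(P.τ K + 2 * P.τ L + 4) := by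
    have h1 : |κ| * (RR q L K : ℤ) ≤ (|m2| + |m1|) * 16^(P.τ L + 1) := by
      have h2 : |κ| * (RR q L K : ℤ) = |m2 * ((y1:ℤ) - y0) - m1 * ((y2:ℤ) - y0)| := by
        rw [hκ1, abs_mul, abs_of_pos hRpos]
      rw [h2]
      calc _ ≤ |m2 * ((y1:ℤ) - y0)| + |m1 * ((y2:ℤ) - y0)| := abs_sub _ _
        _ = |m2| * |(y1:ℤ) - y0| + |m1| * |(y2:ℤ) - y0| := by rw [abs_mul, abs_mul]
        _ ≤ |m2| * 16^(P.τ L + 1) + |m1| * 16^(P.τ L + 1) := by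
          gcongr
        _ = _ := by ring
    calc |κ| * (16:ℤ)^(kap K) ≤ |κ| * ((DD q L : ℤ) * (RR q L K : ℤ)) := by gcongr
      _ = (|κ| * (RR q L K : ℤ)) * (DD q L : ℤ) := by ring
      _ ≤ ((|m2| + |m1|) * 16^(P.τ L + 1)) * (DD q L : ℤ) := by gcongr
      _ = (|m2| * (DD q L : ℤ) + |m1| * (DD q L : ℤ)) * 16^(P.τ L + 1) := by ring
      _ ≤ (16^(P.τ K + P.τ L + 2) + 16^(P.τ K + P.τ L + 2)) * 16^(P.τ L + 1) := by gcongr
      _ = 2 * 16^(P.τ K + 2 * P.τ L + 3) := by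
        rw [← two_mul, mul_assoc, ← pow_add]
        congr 2; omega
      _ ≤ 16 * 16^(P.τ K + 2 * P.τ L + 3) := by gcongr; norm_num
      _ = 16^(P.τ K + 2 * P.τ L + 4) := by rw [← pow_succ']
  have ams : ∀ m s : ℤ, |m| * (DD q L : ℤ) ≤ 16^(P.τ K + P.τ L + 2) →
      |s| * (RR q L K : ℤ) ≤ 16^(P.τ K + 1) → |m * s| ≤ 16^(P.τ L) := by
    intro m s hm hs
    have h1 : |m * s| * (16:ℤ)^(2 * P.τ K + 3) ≤ 16^(P.τ L) * 16^(2 * P.τ K + 3) := by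
      calc |m * s| * (16:ℤ)^(2 * P.τ K + 3) ≤ |m * s| * (16:ℤ)^(kap K) := by
            gcongr
            · norm_num
            · exact P.h3 K hK0
        _ ≤ |m * s| * ((DD q L : ℤ) * (RR q L K : ℤ)) := by gcongr
        _ = (|m| * (DD q L : ℤ)) * (|s| * (RR q L K : ℤ)) := by rw [abs_mul]; ring
        _ ≤ 16^(P.τ K + P.τ L + 2) * 16^(P.τ K + 1) := by gcongr
        _ = _ := by rw [← pow_add, ← pow_add]; congr 1; omega
    exact le_of_mul_le_mul_right h1 (by positivity)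
  have hκn : κ ≠ 0 := by
    refine kappa_ne x0 y1 y2 m1 m2 s1 s2 κ (Nat.prime_iff_prime_int.1 py1)
      (Nat.prime_iff_prime_int.1 py2) ?_ hm2n hs1n ?_ hκ2
    · intro hd
      have hd' : y2 ∣ y1 := by exact_mod_cast hd
      exact n6 ((Nat.prime_dvd_prime_iff_eq py2 py1).1 hd').symm
    · have h1 := ams m2 s1 am2 as1
      have h2 : (16:ℤ)^(P.τ L) < y2 := by exact_mod_cast gy2
      linarith
  refine ⟨m1, m2, κ, s1, s2, hm1', hm2', hs1', hs2', hκ1, hκ2, hm1n, hm12, hs2n,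
    ams m1 s2 am1 as2, ?_, ?_, ?_, ?_⟩
  · refine mem_bset (by positivity) hm1n (natAbs_le ?_)
    push_cast
    calc |m1| * (16:ℤ)^(kap L) ≤ |m1| * (DD q L : ℤ) := by gcongr
      _ ≤ _ := am1
  · refine mem_bset (by positivity) hm2n (natAbs_le ?_)
    push_cast
    calc |m2| * (16:ℤ)^(kap L) ≤ |m2| * (DD q L : ℤ) := by gcongr
      _ ≤ _ := am2
  · refine mem_bset (by positivity) hκn (natAbs_le ?_)
    push_cast
    exact aκ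
  · refine mem_bset (by positivity) hs1n (natAbs_le ?_)
    push_cast
    calc |s1| * (16:ℤ)^(rl L K) ≤ |s1| * (RR q L K : ℤ) := by gcongr
      _ ≤ _ := as1

end Pool.Agent.H601.BG
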